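import Pool.Agent.H13.EC.Def
import Pool.Agent.H16.EC.Mass
import Pool.Agent.H16.EC.Gain
import Pool.Agent.H16.EC.OnePoint

/-!
# EC-S2: the slack family (note 1487, Step 5)

For every `η` there is `cS > 0`, uniform in `q, κ, M, F, N, K, x0`, such that there is a family `IsFam` with total
gain at least `cS` times the mass of the good set `{|A - i m0| ≤ 1/2 - η}`.

PROOF.  `one_point` (`H16/EC/OnePoint`): `t ≤ 1/8`, `g, ζ > 0` depending only on `η` such that for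
`|cc F q κ z0| ≤ 1/2 - η`, `V0 = y0 |F' z0|`, `w` in `ball (F z0 - i R y0 F' z0) (ζ V0)`: `F z ≠ w` for `|z - z0| ≤ t y0`
and `(1 + g) |F z0 - w| y^(κ/q) ≤ |F z - w| y0^(κ/q)` on the annulus; `Gain` turns this into a gain of `uu`.
`Mass` (compactness and Vitali): finitely many points of the good set with disjoint balls and
`int_{Good} W ≤ C sum y^κ V^(2-q)`.
-/

set_option autoImplicit false

open Set Metric MeasureTheory

namespace H13.EC

open H62.CJ Pool.Agent.H16.EC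

/-- the good set -/
def Good (F : ℂ → ℂ) (q κ η : ℝ) : Set (ℝ × ℝ) := {p | ‖cc F q κ (pt p.1 p.2)‖ ≤ 1 / 2 - η}

/-- the good set as a subset of the plane -/
def S2K (F : ℂ → ℂ) (q κ η x0 y1 b : ℝ) : Set ℂ :=
  {z : ℂ | z.re ∈ Icc x0 (x0 + 2 * Real.pi) ∧ z.im ∈ Icc y1 b ∧ ‖cc F q κ z‖ ≤ 1 / 2 - η}

lemma S2_HP_open : IsOpen HP := isOpen_lt continuous_const Complex.continuous_im

lemma S2_cc_cont (F : ℂ → ℂ) (M q κ : ℝ) (hF : Cls F M) : ContinuousOn (cc F q κ) HP := by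
  have h1 : DifferentiableOn ℂ (deriv F) HP := hF.diff.deriv S2_HP_open
  have h2 : DifferentiableOn ℂ (deriv (deriv F)) HP := h1.deriv S2_HP_open
  have h3 : ContinuousOn (fun z : ℂ => (z.im : ℂ)) HP :=
    (Complex.continuous_ofReal.comp Complex.continuous_im).continuousOn
  apply ContinuousOn.sub _ continuousOn_const
  exact (h3.mul h2.continuousOn).div h1.continuousOn (fun z hz => deriv_ne F M hF z hz)

lemma S2_compact (F : ℂ → ℂ) (M q κ η x0 y1 b : ℝ) (hF : Cls F M) (hy : 0 < y1) :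
    IsCompact (S2K F q κ η x0 y1 b) := by
  have hR : IsCompact (Icc x0 (x0 + 2 * Real.pi) ×ℂ Icc y1 b) := isCompact_Icc.reProdIm isCompact_Icc
  have hsub : (Icc x0 (x0 + 2 * Real.pi) ×ℂ Icc y1 b) ⊆ HP := by
    intro z hz
    exact lt_of_lt_of_le hy hz.2.1
  have hc : ContinuousOn (fun z => ‖cc F q κ z‖) (Icc x0 (x0 + 2 * Real.pi) ×ℂ Icc y1 b) :=
    ((S2_cc_cont F M q κ hF).mono hsub).norm
  have hcl := hc.preimage_isClosed_of_isClosed hR.isClosed (isClosed_Iic (a := 1 / 2 - η))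
  have he : S2K F q κ η x0 y1 b = (Icc x0 (x0 + 2 * Real.pi) ×ℂ Icc y1 b) ∩
      (fun z => ‖cc F q κ z‖) ⁻¹' Iic (1 / 2 - η) := by
    ext z
    constructor
    · rintro ⟨h1, h2, h3⟩
      exact ⟨⟨h1, h2⟩, h3⟩
    · rintro ⟨⟨h1, h2⟩, h3⟩
      exact ⟨h1, h2, h3⟩
  rw [he]
  exact hR.of_isClosed_subset hcl inter_subset_left

lemma S2_integral (F : ℂ → ℂ) (q κ η x0 y1 b : ℝ) :
    ∫ p in RC x0 y1 b ∩ Good F q κ η, WW F q κ (pt p.1 p.2) =
      ∫ z in S2K F q κ η x0 y1 b, WW F q κ z := by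
  have h1 := (Complex.volume_preserving_equiv_real_prod.symm).setIntegral_preimage_emb
    (MeasurableEquiv.measurableEmbedding _) (WW F q κ) (S2K F q κ η x0 y1 b)
  have h2 : (Complex.measurableEquivRealProd.symm) ⁻¹' (S2K F q κ η x0 y1 b) =
      RC x0 y1 b ∩ Good F q κ η := by
    ext p
    constructor
    · rintro ⟨h1, h2, h3⟩
      exact ⟨⟨h1, h2⟩, h3⟩
    · rintro ⟨⟨h1, h2⟩, h3⟩
      exact ⟨h1, h2, h3⟩
  rw [h2] at h1
  exact h1

lemma S2_min (u : Finset ℂ) (f : ℂ → ℝ) (hf : ∀ z ∈ u, 0 < f z) :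
    ∃ δ0 : ℝ, 0 < δ0 ∧ ∀ z ∈ u, δ0 ≤ f z := by
  classical
  induction u using Finset.induction_on with
  | empty => exact ⟨1, one_pos, by simp⟩
  | insert a s ha ih =>
    obtain ⟨d, hd, hds⟩ := ih (fun z hz => hf z (Finset.mem_insert_of_mem hz))
    refine ⟨min d (f a), lt_min hd (hf a (Finset.mem_insert_self a s)), ?_⟩
    intro z hz
    rcases Finset.mem_insert.mp hz with h | h
    · rw [h]
      exact min_le_right _ _
    · exact (min_le_left _ _).trans (hds z h)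

theorem exists_fam (η : ℝ) (hη : 0 < η) (hη1 : η < 1 / 2) :
    ∃ cS : ℝ, 0 < cS ∧ ∀ q κ : ℝ, 9 / 10 ≤ q → q < 1 → 1 / 5 ≤ κ → κ ≤ 1 / 4 →
      ∀ (F : ℂ → ℂ) (M : ℝ), Cls F M → ∀ N K : ℕ, 26 ≤ N → 1 ≤ K → ∀ x0 : ℝ,
      ∃ (ι : Type) (s : Finset ι) (c : ι → ℂ) (ρ : ι → ℝ) (ω : ι → ℂ) (σ γ : ι → ℝ) (δ0 : ℝ),
        IsFam F q κ x0 (2 * Real.pi / N / 2 ^ K) (2 * Real.pi / N) s c ρ ω σ γ δ0 ∧
        cS * (∫ p in RC x0 (2 * Real.pi / N / 2 ^ K) (2 * Real.pi / N) ∩ Good F q κ η,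
          WW F q κ (pt p.1 p.2)) ≤ ∑ k ∈ s, γ k * (Real.pi * σ k ^ 2) := by
  obtain ⟨t, g, ζ, ht, ht8, hg, hζ, hζ1, h1p⟩ := one_point η hη hη1
  have hth := thg_pos g hg
  refine ⟨thg g * Real.pi * ζ ^ 2 / (32 * Real.pi * t ^ 2 * Real.exp (2 * 4)), by positivity, ?_⟩
  intro q κ hq hq1 hκ hκ1 F M hF N K hN hK x0
  have hN0 : (26 : ℝ) ≤ N := by exact_mod_cast hN
  have hpi := Real.pi_pos
  have hpi2 := Real.pi_lt_d2
  set b : ℝ := 2 * Real.pi / N with hb
  have hb0 : 0 < b := by positivity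
  have hb1 : b ≤ 1 / 4 := by
    rw [hb, div_le_iff₀ (by linarith)]
    linarith
  set y1 : ℝ := b / 2 ^ K with hy1
  have hy1pos : 0 < y1 := by positivity
  have hq0 : 0 < q := by linarith
  have hκ0 : 0 < κ := by linarith
  have hr1 : 1 / 5 ≤ κ / q := by
    rw [le_div_iff₀ hq0]
    nlinarith
  have hr2 : κ / q ≤ 1 / 3 := by
    rw [div_le_iff₀ hq0]
    nlinarith
  have hHP : HP = {z : ℂ | 0 < z.im} := rfl
  have hFd : DifferentiableOn ℂ F {z : ℂ | 0 < z.im} := hF.diff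
  have hA : ∀ z : ℂ, 0 < z.im → z.im ≤ 2 * (1 / 4) →
      z.im * ‖deriv (deriv F) z‖ ≤ 4 * ‖deriv F z‖ := by
    intro z hz hz1
    have h1 := AA_le F M hF z.re z.im hz (by linarith)
    have h2 : ‖AA F z‖ = z.im * ‖deriv (deriv F) z‖ / ‖deriv F z‖ := by
      unfold AA
      rw [norm_div, norm_mul, Complex.norm_real, Real.norm_of_nonneg hz.le]
    have h3 : 0 < ‖deriv F z‖ := norm_pos_iff.mpr (deriv_ne F M hF z hz)
    rw [pt_re_im, h2, div_le_iff₀ h3] at h1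
    exact h1
  obtain ⟨u, huK, hdisj, hmass⟩ := mass_le F 4 (1 / 4) κ q t (by norm_num) hq0 hq1 hκ0
    (by linarith) ht ht8 hFd hA (S2K F q κ η x0 y1 b) (S2_compact F M q κ η x0 y1 b hF hy1pos)
    (fun z hz => ⟨lt_of_lt_of_le hy1pos hz.2.1.1, hz.2.1.2.trans hb1⟩)
  have hpos : ∀ z ∈ u, 0 < z.im := fun z hz => lt_of_lt_of_le hy1pos (huK z hz).2.1.1
  have hle : ∀ z ∈ u, z.im ≤ 1 / 4 := fun z hz => (huK z hz).2.1.2.trans hb1
  have hVpos : ∀ z ∈ u, 0 < z.im * ‖deriv F z‖ := fun z hz =>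
    mul_pos (hpos z hz) (norm_pos_iff.mpr (deriv_ne F M hF z (hpos z hz)))
  obtain ⟨δ0, hδ0, hδu⟩ := S2_min u (fun z => Real.sqrt g * (2 * (z.im * ‖deriv F z‖)))
    (fun z hz => by have := hVpos z hz; positivity)
  have hone : ∀ z0 ∈ u, ∀ w : ℂ,
      ‖w - (F z0 - Complex.I * ((z0.im : ℂ) * deriv F z0) / ((κ / q : ℝ) : ℂ))‖ ≤
        ζ * (z0.im * ‖deriv F z0‖) →
      (∀ z : ℂ, ‖z - z0‖ ≤ t * z0.im → F z ≠ w) ∧
      (∀ z : ℂ, t * z0.im / 2 ≤ ‖z - z0‖ → ‖z - z0‖ ≤ t * z0.im →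
        (1 + g) * ‖F z0 - w‖ * z.im ^ (κ / q) ≤ ‖F z - w‖ * z0.im ^ (κ / q)) := by
    intro z0 hz0 w hw
    refine h1p (κ / q) F z0 w hr1 hr2 hFd (hpos z0 hz0) ?_ (deriv_ne F M hF z0 (hpos z0 hz0)) ?_ hw
    · intro z hz
      have h1 : |(z - z0).im| ≤ z0.im / 2 := le_trans (Complex.abs_im_le_norm _) hz
      rw [Complex.sub_im] at h1
      have h2 := abs_le.mp h1
      have h3 := hpos z0 hz0
      have h4 := hle z0 hz0
      exact hA z (by linarith [h2.1]) (by linarith [h2.2])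
    · exact (huK z0 hz0).2.2
  have hdist : ∀ z0 ∈ u, ∀ w : ℂ,
      ‖w - (F z0 - Complex.I * ((z0.im : ℂ) * deriv F z0) / ((κ / q : ℝ) : ℂ))‖ ≤
        ζ * (z0.im * ‖deriv F z0‖) →
      2 * (z0.im * ‖deriv F z0‖) ≤ ‖F z0 - w‖ ∧ ‖F z0 - w‖ ≤ 6 * (z0.im * ‖deriv F z0‖) := by
    intro z0 hz0 w hw
    have hV := hVpos z0 hz0
    have hn : ‖Complex.I * ((z0.im : ℂ) * deriv F z0) / ((κ / q : ℝ) : ℂ)‖ =
        (z0.im * ‖deriv F z0‖) / (κ / q) := by
      rw [norm_div, norm_mul, Complex.norm_I, one_mul, norm_mul, Complex.norm_real,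
        Complex.norm_real, Real.norm_of_nonneg (hpos z0 hz0).le,
        Real.norm_of_nonneg (by positivity)]
    have hn1 : 3 * (z0.im * ‖deriv F z0‖) ≤ (z0.im * ‖deriv F z0‖) / (κ / q) := by
      rw [le_div_iff₀ (by positivity)]
      nlinarith
    have hn2 : (z0.im * ‖deriv F z0‖) / (κ / q) ≤ 5 * (z0.im * ‖deriv F z0‖) := by
      rw [div_le_iff₀ (by positivity)]
      nlinarith
    have e1 : F z0 - w = Complex.I * ((z0.im : ℂ) * deriv F z0) / ((κ / q : ℝ) : ℂ) -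
        (w - (F z0 - Complex.I * ((z0.im : ℂ) * deriv F z0) / ((κ / q : ℝ) : ℂ))) := by ring
    have e2 : ζ * (z0.im * ‖deriv F z0‖) ≤ z0.im * ‖deriv F z0‖ := by nlinarith
    rw [e1]
    constructor
    · have h := norm_sub_norm_le (Complex.I * ((z0.im : ℂ) * deriv F z0) / ((κ / q : ℝ) : ℂ))
        (w - (F z0 - Complex.I * ((z0.im : ℂ) * deriv F z0) / ((κ / q : ℝ) : ℂ)))
      rw [hn] at h
      linarith
    · have h := norm_sub_le (Complex.I * ((z0.im : ℂ) * deriv F z0) / ((κ / q : ℝ) : ℂ))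
        (w - (F z0 - Complex.I * ((z0.im : ℂ) * deriv F z0) / ((κ / q : ℝ) : ℂ)))
      rw [hn] at h
      linarith
  refine ⟨ℂ, u, fun z => z, fun z => t * z.im,
    fun z => F z - Complex.I * ((z.im : ℂ) * deriv F z) / ((κ / q : ℝ) : ℂ),
    fun z => ζ * (z.im * ‖deriv F z‖),
    fun z => thg g * (z.im ^ κ * (z.im * ‖deriv F z‖) ^ (-q)), δ0, ?_, ?_⟩
  · constructor
    · exact hδ0
    · exact fun z hz => (huK z hz).1
    · exact fun z hz => (huK z hz).2.1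
    · exact fun z hz => mul_pos ht (hpos z hz)
    · intro z hz
      have := hpos z hz
      show t * z.im ≤ z.im / 2
      nlinarith
    · intro z hz
      have := hVpos z hz
      positivity
    · intro z hz
      have := hVpos z hz
      have := hpos z hz
      positivity
    · intro z hz z' hz' hne
      have h1 := hdisj z hz z' hz' hne
      have h2 := hpos z hz
      have h3 := hpos z' hz'
      rw [disjoint_closedBall_closedBall_iff (by positivity) (by positivity), dist_eq_norm] at h1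
      exact h1
    · intro z hz
      have hV := hVpos z hz
      have hn : ‖F z - Complex.I * ((z.im : ℂ) * deriv F z) / ((κ / q : ℝ) : ℂ) - F z‖ =
          (z.im * ‖deriv F z‖) * (q / κ) := by
        rw [show F z - Complex.I * ((z.im : ℂ) * deriv F z) / ((κ / q : ℝ) : ℂ) - F z =
          -(Complex.I * ((z.im : ℂ) * deriv F z) / ((κ / q : ℝ) : ℂ)) by ring, norm_neg,
          norm_div, norm_mul, Complex.norm_I, one_mul, norm_mul, Complex.norm_real,
          Complex.norm_real, Real.norm_of_nonneg (hpos z hz).le,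
          Real.norm_of_nonneg (by positivity)]
        field_simp
      show ‖F z - Complex.I * ((z.im : ℂ) * deriv F z) / ((κ / q : ℝ) : ℂ) - F z‖ +
        ζ * (z.im * ‖deriv F z‖) ≤ (q / κ + 1) * (z.im * ‖deriv F z‖)
      rw [hn]
      nlinarith
    · intro z0 hz0 w hw δ hδ hδδ z hz1 hz2
      have hw' : ‖w - (F z0 - Complex.I * ((z0.im : ℂ) * deriv F z0) / ((κ / q : ℝ) : ℂ))‖ ≤
          ζ * (z0.im * ‖deriv F z0‖) := by
        rw [← dist_eq_norm]
        exact (mem_ball.mp hw).le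
      have h1 := (hone z0 hz0 w hw').2 z hz1 hz2
      have h2 := hdist z0 hz0 w hw'
      have hV := hVpos z0 hz0
      have him : 0 < z.im := by
        have h3 : |(z - z0).im| ≤ t * z0.im := le_trans (Complex.abs_im_le_norm _) hz2
        rw [Complex.sub_im] at h3
        have h4 := abs_le.mp h3
        have h5 := hpos z0 hz0
        nlinarith [h4.1]
      apply gain_real q κ g ‖F z0 - w‖ ‖F z - w‖ (z0.im * ‖deriv F z0‖) z.im z0.im δ hq hq1 hκ0
        hg hV h2.1 h2.2 him (hpos z0 hz0) h1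
      have h6 : δ ≤ Real.sqrt g * ‖F z0 - w‖ :=
        (hδδ.trans (hδu z0 hz0)).trans (mul_le_mul_of_nonneg_left h2.1 (Real.sqrt_nonneg g))
      calc δ ^ 2 ≤ (Real.sqrt g * ‖F z0 - w‖) ^ 2 := pow_le_pow_left₀ hδ.le h6 2
        _ = g * ‖F z0 - w‖ ^ 2 := by rw [mul_pow, Real.sq_sqrt hg.le]
    · intro z0 hz0 w hw z hz
      have hw' : ‖w - (F z0 - Complex.I * ((z0.im : ℂ) * deriv F z0) / ((κ / q : ℝ) : ℂ))‖ ≤
          ζ * (z0.im * ‖deriv F z0‖) := by
        rw [← dist_eq_norm]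
        exact (mem_ball.mp hw).le
      exact (hone z0 hz0 w hw').1 z hz
  · rw [S2_integral]
    have h1 : ∑ z ∈ u, thg g * (z.im ^ κ * (z.im * ‖deriv F z‖) ^ (-q)) *
        (Real.pi * (ζ * (z.im * ‖deriv F z‖)) ^ 2) =
        thg g * Real.pi * ζ ^ 2 * ∑ z ∈ u, z.im ^ κ * (z.im * ‖deriv F z‖) ^ (2 - q) := by
      rw [Finset.mul_sum]
      apply Finset.sum_congr rfl
      intro z hz
      have hV := hVpos z hz
      have h2 : (z.im * ‖deriv F z‖) ^ (2 - q) =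
          (z.im * ‖deriv F z‖) ^ (-q) * (z.im * ‖deriv F z‖) ^ 2 := by
        rw [← Real.rpow_natCast (z.im * ‖deriv F z‖) 2, ← Real.rpow_add hV]
        congr 1
        push_cast
        ring
      rw [h2]
      ring
    rw [h1]
    have h3 : 0 < 32 * Real.pi * t ^ 2 * Real.exp (2 * 4) := by positivity
    calc thg g * Real.pi * ζ ^ 2 / (32 * Real.pi * t ^ 2 * Real.exp (2 * 4)) *
          ∫ z in S2K F q κ η x0 y1 b, WW F q κ z
        ≤ thg g * Real.pi * ζ ^ 2 / (32 * Real.pi * t ^ 2 * Real.exp (2 * 4)) *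
          (32 * Real.pi * t ^ 2 * Real.exp (2 * 4) *
            ∑ z ∈ u, z.im ^ κ * (z.im * ‖deriv F z‖) ^ (2 - q)) :=
          mul_le_mul_of_nonneg_left hmass (by positivity)
      _ = _ := by
          field_simp

end H13.EC
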