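import Pool.Agent.H13.EC.Def

/-!
# EC-M1: moments on the rectangle, choice of `x0`

PROOF.  `rc_eq`: Fubini on the product set (continuous function on a compact rectangle), then periodicity
(`Function.Periodic.intervalIntegral_add_eq`).  `mom_re`: `∂x |F'|^p = p |F'|^p Re (F''/F')` (`P1_ux`), so the
`x` integral vanishes by periodicity.  `mom_im`, `mom_sq`: `parts1`, `parts2` in `Pool.Agent.H62.CJ.P2` with
`μ = κ - q + 1`, `p = 2 - q`.  `choose_x0`: the mean over `x0` in `[0, 2 pi]` of the left hand side is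
`(1/(2 pi)) int y^(κ-q+1) PP dy ≤ (b/(2 pi)) I1`; there is a point where the value is at most the mean.
-/

set_option autoImplicit false

open Set Metric MeasureTheory

namespace H13.EC

open H62.CJ

theorem m1_comp (G : ℂ → ℝ) (hG : ContinuousOn G HP) :
    ContinuousOn (fun p : ℝ × ℝ => G (pt p.1 p.2)) (univ ×ˢ Ioi 0) :=
  hG.comp P1_pt_cont.continuousOn fun p hp => (show 0 < (pt p.1 p.2).im from hp.2)

theorem rc_integrable (G : ℂ → ℝ) (hG : ContinuousOn G HP) (x0 y1 b : ℝ) (hy1 : 0 < y1) :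
    IntegrableOn (fun p : ℝ × ℝ => G (pt p.1 p.2)) (RC x0 y1 b) := by
  refine ContinuousOn.integrableOn_compact (isCompact_Icc.prod isCompact_Icc)
    ((m1_comp G hG).mono ?_)
  intro p hp
  exact ⟨mem_univ _, lt_of_lt_of_le hy1 hp.2.1⟩

theorem m1_per_int (f : ℝ → ℝ) (hf : ∀ x, f (x + 2 * Real.pi) = f x) (x0 : ℝ) :
    ∫ x in Icc x0 (x0 + 2 * Real.pi), f x = ∫ x in (0 : ℝ)..(2 * Real.pi), f x := by
  have hp : Function.Periodic f (2 * Real.pi) := hf
  rw [integral_Icc_eq_integral_Ioc, ← intervalIntegral.integral_of_le (by linarith [Real.pi_pos]),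
    hp.intervalIntegral_add_eq x0 0, zero_add]

theorem rc_eq (G : ℂ → ℝ) (hG : ContinuousOn G HP)
    (hper : ∀ x y : ℝ, 0 < y → G (pt (x + 2 * Real.pi) y) = G (pt x y)) (x0 y1 b : ℝ)
    (hy1 : 0 < y1) (hb : y1 ≤ b) :
    ∫ p in RC x0 y1 b, G (pt p.1 p.2) =
      ∫ y in y1..b, ∫ x in (0 : ℝ)..(2 * Real.pi), G (pt x y) := by
  have hi := rc_integrable G hG x0 y1 b hy1
  unfold RC at hi ⊢
  unfold IntegrableOn at hi
  rw [Measure.volume_eq_prod, ← Measure.prod_restrict] at hi ⊢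
  rw [integral_prod_symm _ hi, integral_Icc_eq_integral_Ioc, intervalIntegral.integral_of_le hb]
  refine setIntegral_congr_fun measurableSet_Ioc fun y hy => ?_
  exact m1_per_int (fun x => G (pt x y)) (fun x => hper x y (hy1.trans hy.1)) x0

theorem cont_WW (F : ℂ → ℂ) (M : ℝ) (hF : Cls F M) (q κ : ℝ) : ContinuousOn (WW F q κ) HP := by
  refine ContinuousOn.mul ?_ ?_
  · intro z hz
    exact ((Real.continuousAt_rpow_const z.im (κ - q) (Or.inl (ne_of_gt hz))).comp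
      Complex.continuous_im.continuousAt).continuousWithinAt
  · intro z hz
    have h1 : ContinuousAt (deriv F) z := (P1_h1 F M hF z hz).continuousAt
    have h2 : ‖deriv F z‖ ≠ 0 := by
      have h3 := P2_ne F M hF z.re z.im hz
      rw [pt_re_im] at h3
      exact norm_ne_zero_iff.2 h3
    exact (h1.norm.rpow_const (Or.inl h2)).continuousWithinAt

theorem cont_AA (F : ℂ → ℂ) (M : ℝ) (hF : Cls F M) : ContinuousOn (AA F) HP := by
  have h : ContinuousOn (fun z : ℂ => (z.im : ℂ) * P1L F z) HP :=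
    (Complex.continuous_ofReal.comp Complex.continuous_im).continuousOn.mul
      (P1_dL F M hF).continuousOn
  refine h.congr fun z _ => ?_
  have h2 := P1_AA F z.re z.im
  rw [pt_re_im] at h2
  exact h2

theorem cont_Gg (F : ℂ → ℂ) (M : ℝ) (hF : Cls F M) : ContinuousOn (Gg F) HP := by
  have h : ContinuousOn (fun z : ℂ => (z.im : ℂ) ^ 2 * deriv (P1L F) z) HP :=
    ((Complex.continuous_ofReal.comp Complex.continuous_im).continuousOn.pow 2).mul
      (P1_cL' F M hF).continuousOn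
  exact h

theorem m1_per (g : ℂ → ℂ) (hg : ∀ z : ℂ, 0 < z.im → g (z + ((2 * Real.pi : ℝ) : ℂ)) = g z)
    (x y : ℝ) (hy : 0 < y) : deriv g (pt (x + 2 * Real.pi) y) = deriv g (pt x y) := by
  have h1 : (fun z : ℂ => g (z + ((2 * Real.pi : ℝ) : ℂ))) =ᶠ[nhds (pt x y)] g := by
    filter_upwards [P1_HP_open.mem_nhds (show pt x y ∈ HP from hy)] with z hz
    exact hg z hz
  have h2 := h1.deriv_eq
  rw [deriv_comp_add_const] at h2
  rw [← h2]
  congr 1
  apply Complex.ext <;> simp [pt]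

theorem m1_per_F (F : ℂ → ℂ) (M : ℝ) (hF : Cls F M) (x y : ℝ) (hy : 0 < y) :
    deriv F (pt (x + 2 * Real.pi) y) = deriv F (pt x y) := m1_per F hF.per x y hy

theorem per_WW (F : ℂ → ℂ) (M : ℝ) (hF : Cls F M) (q κ x y : ℝ) (hy : 0 < y) :
    WW F q κ (pt (x + 2 * Real.pi) y) = WW F q κ (pt x y) := by
  unfold WW
  rw [m1_per_F F M hF x y hy]
  rfl

theorem per_AA (F : ℂ → ℂ) (M : ℝ) (hF : Cls F M) (x y : ℝ) (hy : 0 < y) :
    AA F (pt (x + 2 * Real.pi) y) = AA F (pt x y) := by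
  rw [P1_AA, P1_AA, P1_Lper F M hF x y hy]

theorem per_Gg (F : ℂ → ℂ) (M : ℝ) (hF : Cls F M) (x y : ℝ) (hy : 0 < y) :
    Gg F (pt (x + 2 * Real.pi) y) = Gg F (pt x y) := by
  unfold Gg
  rw [m1_per (P1L F) ?_ x y hy]
  · rfl
  · intro z hz
    have h := P1_Lper F M hF z.re z.im hz
    rw [pt_re_im] at h
    rw [← h]
    congr 1
    apply Complex.ext <;> simp [pt]

theorem mom0 (F : ℂ → ℂ) (M : ℝ) (hF : Cls F M) (q κ x0 y1 b : ℝ) (hy1 : 0 < y1)
    (hb : y1 ≤ b) : ∫ p in RC x0 y1 b, WW F q κ (pt p.1 p.2) = I1 F q κ y1 b := by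
  rw [rc_eq (WW F q κ) (cont_WW F M hF q κ) (fun x y hy => per_WW F M hF q κ x y hy) x0 y1 b hy1 hb]
  unfold I1 PP WW
  refine intervalIntegral.integral_congr fun y _ => ?_
  simp only [pt_im]
  rw [← intervalIntegral.integral_const_mul]

theorem m1_mom (F : ℂ → ℂ) (M : ℝ) (hF : Cls F M) (q κ x0 y1 b : ℝ) (hy1 : 0 < y1)
    (hb : y1 ≤ b) (H : ℂ → ℝ) (hH : ContinuousOn H HP)
    (hp : ∀ x y : ℝ, 0 < y → H (pt (x + 2 * Real.pi) y) = H (pt x y)) :
    ∫ p in RC x0 y1 b, WW F q κ (pt p.1 p.2) * H (pt p.1 p.2) =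
      ∫ y in y1..b, y ^ (κ - q) *
        ∫ x in (0 : ℝ)..(2 * Real.pi), ‖deriv F (pt x y)‖ ^ (2 - q) * H (pt x y) := by
  rw [rc_eq (fun z => WW F q κ z * H z) ((cont_WW F M hF q κ).mul hH)
    (fun x y hy => by simp only [per_WW F M hF q κ x y hy, hp x y hy]) x0 y1 b hy1 hb]
  refine intervalIntegral.integral_congr fun y _ => ?_
  show _ = y ^ (κ - q) *
    ∫ x in (0 : ℝ)..(2 * Real.pi), ‖deriv F (pt x y)‖ ^ (2 - q) * H (pt x y)
  rw [← intervalIntegral.integral_const_mul]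
  refine intervalIntegral.integral_congr fun x _ => ?_
  simp only [WW, pt_im]
  ring

theorem mom_re (F : ℂ → ℂ) (M : ℝ) (hF : Cls F M) (q κ x0 y1 b : ℝ) (hq : q < 1)
    (hy1 : 0 < y1) (hb : y1 ≤ b) :
    ∫ p in RC x0 y1 b, WW F q κ (pt p.1 p.2) * (AA F (pt p.1 p.2)).re = 0 := by
  rw [m1_mom F M hF q κ x0 y1 b hy1 hb (fun z => (AA F z).re)
    (Complex.continuous_re.comp_continuousOn (cont_AA F M hF))
    (fun x y hy => by rw [per_AA F M hF x y hy])]
  have hp0 : (2 - q) ≠ 0 := by linarith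
  have h0 : ∀ y ∈ uIcc y1 b, y ^ (κ - q) *
      ∫ x in (0 : ℝ)..(2 * Real.pi), ‖deriv F (pt x y)‖ ^ (2 - q) * (AA F (pt x y)).re = 0 := by
    intro y hy
    rw [uIcc_of_le hb] at hy
    have hy0 : 0 < y := lt_of_lt_of_le hy1 hy.1
    have h1 : ∫ x in (0 : ℝ)..(2 * Real.pi),
        (2 - q) * ‖deriv F (pt x y)‖ ^ (2 - q) * (P1L F (pt x y)).re = 0 := by
      have hd : ∀ x ∈ uIcc (0 : ℝ) (2 * Real.pi),
          HasDerivAt (fun t : ℝ => ‖deriv F (pt t y)‖ ^ (2 - q))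
            ((2 - q) * ‖deriv F (pt x y)‖ ^ (2 - q) * (P1L F (pt x y)).re) x :=
        fun x _ => P1_ux F M hF (2 - q) x y hy0
      have hc : Continuous fun x : ℝ =>
          (2 - q) * ‖deriv F (pt x y)‖ ^ (2 - q) * (P1L F (pt x y)).re := by
        have h2 := P1_slice (fun x r => ‖deriv F (pt x r)‖ ^ (2 - q)) (P1_ucont F M hF (2 - q)) y hy0
        have h3 := P1_slice (fun x r => (P1L F (pt x r)).re) (P1_Lre F M hF) y hy0
        exact (continuous_const.mul h2).mul h3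
      rw [intervalIntegral.integral_eq_sub_of_hasDerivAt hd (hc.intervalIntegrable _ _)]
      have h4 := m1_per_F F M hF 0 y hy0
      rw [zero_add] at h4
      rw [h4, sub_self]
    have h5 : ∫ x in (0 : ℝ)..(2 * Real.pi), ‖deriv F (pt x y)‖ ^ (2 - q) * (AA F (pt x y)).re =
        (y / (2 - q)) * ∫ x in (0 : ℝ)..(2 * Real.pi),
          (2 - q) * ‖deriv F (pt x y)‖ ^ (2 - q) * (P1L F (pt x y)).re := by
      rw [← intervalIntegral.integral_const_mul]
      refine intervalIntegral.integral_congr fun x _ => ?_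
      have h6 : (AA F (pt x y)).re = y * (P1L F (pt x y)).re := by rw [P1_AA]; simp
      simp only [h6]
      field_simp
    rw [h5, h1]
    ring
  rw [intervalIntegral.integral_congr h0]
  simp

theorem mom_im (F : ℂ → ℂ) (M : ℝ) (hF : Cls F M) (q κ x0 y1 b : ℝ) (hq : q < 1)
    (hy1 : 0 < y1) (hb : y1 ≤ b) :
    ∫ p in RC x0 y1 b, WW F q κ (pt p.1 p.2) * (AA F (pt p.1 p.2)).im =
      1 / (2 - q) * (y1 ^ (κ - q + 1) * PP F (2 - q) y1 - b ^ (κ - q + 1) * PP F (2 - q) b) +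
      (κ - q + 1) / (2 - q) * I1 F q κ y1 b := by
  rw [m1_mom F M hF q κ x0 y1 b hy1 hb (fun z => (AA F z).im)
    (Complex.continuous_im.comp_continuousOn (cont_AA F M hF))
    (fun x y hy => by rw [per_AA F M hF x y hy])]
  have h := parts1 F M hF (2 - q) (κ - q + 1) y1 b (by linarith) hy1 hb
  rw [show κ - q + 1 - 1 = κ - q by ring] at h
  exact h

theorem mom_sq (F : ℂ → ℂ) (M : ℝ) (hF : Cls F M) (q κ x0 y1 b : ℝ) (hq : q < 1)
    (hy1 : 0 < y1) (hb : y1 ≤ b) :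
    ∫ p in RC x0 y1 b, WW F q κ (pt p.1 p.2) * ‖AA F (pt p.1 p.2)‖ ^ 2 =
      1 / (2 - q) * (y1 ^ (κ - q + 1) * B1 F (2 - q) y1 - b ^ (κ - q + 1) * B1 F (2 - q) b) +
      (κ - q + 2) / (2 - q) *
        (1 / (2 - q) * (y1 ^ (κ - q + 1) * PP F (2 - q) y1 - b ^ (κ - q + 1) * PP F (2 - q) b) +
        (κ - q + 1) / (2 - q) * I1 F q κ y1 b) := by
  rw [m1_mom F M hF q κ x0 y1 b hy1 hb (fun z => ‖AA F z‖ ^ 2)
    ((cont_AA F M hF).norm.pow 2) (fun x y hy => by rw [per_AA F M hF x y hy])]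
  have h1 := parts1 F M hF (2 - q) (κ - q + 1) y1 b (by linarith) hy1 hb
  have h2 := parts2 F M hF (2 - q) (κ - q + 1) y1 b (by linarith) hy1 hb
  rw [show κ - q + 1 - 1 = κ - q by ring] at h1 h2
  rw [show κ - q + 1 + 1 = κ - q + 2 by ring, h1] at h2
  exact h2

theorem choose_x0 (F : ℂ → ℂ) (M : ℝ) (hF : Cls F M) (q κ y1 b : ℝ) (hy1 : 0 < y1)
    (hb : y1 ≤ b) :
    ∃ x0 ∈ Icc (0 : ℝ) (2 * Real.pi),
      ∫ y in y1..b, y ^ (κ - q + 1) * ‖deriv F (pt x0 y)‖ ^ (2 - q) ≤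
        b / (2 * Real.pi) * I1 F q κ y1 b := by
  have hpi : 0 < 2 * Real.pi := by positivity
  have hW := cont_WW F M hF q (κ + 1)
  have hi := rc_integrable (WW F q (κ + 1)) hW 0 y1 b hy1
  have h0 := mom0 F M hF q (κ + 1) 0 y1 b hy1 hb
  have hle : I1 F q (κ + 1) y1 b ≤ b * I1 F q κ y1 b := by
    unfold I1
    rw [← intervalIntegral.integral_const_mul]
    have hPc : ContinuousOn (PP F (2 - q)) (Ioi 0) := PP_continuousOn F M hF (2 - q)
    have hsub : uIcc y1 b ⊆ Ioi (0 : ℝ) := by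
      rw [uIcc_of_le hb]
      intro y hy
      exact lt_of_lt_of_le hy1 hy.1
    have hr : ∀ e : ℝ, ContinuousOn (fun y : ℝ => y ^ e) (Ioi 0) := fun e y hy =>
      (Real.continuousAt_rpow_const y e (Or.inl (ne_of_gt hy))).continuousWithinAt
    refine intervalIntegral.integral_mono_on hb
      (((hr (κ + 1 - q)).mul hPc).mono hsub).intervalIntegrable
      ((((hr (κ - q)).mul hPc).mono hsub).intervalIntegrable.const_mul b) fun y hy => ?_
    have hy0 : 0 < y := lt_of_lt_of_le hy1 hy.1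
    have h3 : y ^ (κ + 1 - q) = y * y ^ (κ - q) := by
      rw [show κ + 1 - q = 1 + (κ - q) by ring, Real.rpow_add hy0, Real.rpow_one]
    rw [h3]
    have h4 : 0 ≤ y ^ (κ - q) * PP F (2 - q) y :=
      mul_nonneg (Real.rpow_nonneg hy0.le _) (PP_pos F M hF (2 - q) y hy0).le
    nlinarith [hy.2]
  have hfub : I1 F q (κ + 1) y1 b = ∫ x in Icc 0 (2 * Real.pi),
      ∫ y in Icc y1 b, WW F q (κ + 1) (pt x y) := by
    rw [← h0]
    unfold RC at hi ⊢
    unfold IntegrableOn at hi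
    rw [Measure.volume_eq_prod, ← Measure.prod_restrict] at hi ⊢
    rw [integral_prod _ hi, zero_add]
  have hint : IntegrableOn (fun x => ∫ y in Icc y1 b, WW F q (κ + 1) (pt x y))
      (Icc 0 (2 * Real.pi)) := by
    unfold RC at hi
    unfold IntegrableOn at hi
    rw [Measure.volume_eq_prod, ← Measure.prod_restrict, zero_add] at hi
    exact hi.integral_prod_left
  have hvol : volume (Icc (0 : ℝ) (2 * Real.pi)) ≠ 0 := by
    rw [Real.volume_Icc, sub_zero]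
    exact (ENNReal.ofReal_pos.2 hpi).ne'
  have hvol2 : volume (Icc (0 : ℝ) (2 * Real.pi)) ≠ ⊤ := by
    rw [Real.volume_Icc]
    exact ENNReal.ofReal_ne_top
  obtain ⟨x, hx, hxle⟩ := exists_le_setAverage hvol hvol2 hint
  refine ⟨x, hx, ?_⟩
  have h6 : ∫ y in y1..b, y ^ (κ - q + 1) * ‖deriv F (pt x y)‖ ^ (2 - q) =
      ∫ y in Icc y1 b, WW F q (κ + 1) (pt x y) := by
    rw [integral_Icc_eq_integral_Ioc, intervalIntegral.integral_of_le hb]
    refine setIntegral_congr_fun measurableSet_Ioc fun y _ => ?_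
    simp only [WW, pt_im]
    rw [show κ + 1 - q = κ - q + 1 by ring]
  rw [h6]
  refine hxle.trans ?_
  rw [setAverage_eq, ← hfub, smul_eq_mul, Measure.real, Real.volume_Icc, sub_zero,
    ENNReal.toReal_ofReal hpi.le]
  have h5 : (2 * Real.pi)⁻¹ * I1 F q (κ + 1) y1 b ≤ (2 * Real.pi)⁻¹ * (b * I1 F q κ y1 b) :=
    mul_le_mul_of_nonneg_left hle (inv_nonneg.2 hpi.le)
  refine h5.trans (le_of_eq ?_)
  field_simp

end H13.EC
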