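import Pool.Agent.H13.EC.M1
import Pool.Agent.H13.EC.S2
import Pool.Agent.H6.EC.Rig2
import Pool.Agent.H26.EC.R4a

/-!
# EC-R4: the mass of the good set (note 1487, Step 6)

PROOF.  `∂ = y (∂x - i ∂y)`, `D = y (∂x + i ∂y)`, `∂A = 2G - iA`, `∂(conj A) = - i conj A`, `DA = iA`,
`D(conj A) = conj(2G - iA)`, `DG = 2iG`, `∂(conj G) = -2i conj G`.  `c = A - i m0`, `Q = |c|^2 - 1/4`,
`G0 = i c + 2 m0 c^2 - m0/2`, `R0 = G - G0 = 2 c ∂Q + Q K2`, `K2 = 4ic - 4G - 2 m0`,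
`(D - 2i) R0 = -(1 - 4 m0^2) c`, `K1 = D(conj c) + (p conj A + i ν) conj c + 2i conj c`,
`D(conj c) = 2 conj G + i conj A`, `ν = κ - q + 1`, `p = 2 - q`.  Pointwise:
`(1 - 4 m0^2) W |c|^2 = W Q {K1 K2 - 2 ∂(c K1) - 2 (p A - iν) c K1} + (∂x - i∂y)(2 y W c K1 Q)
   - (∂x + i∂y)(y W (conj c) R0)`.
Integrate over the rectangle (periodic in `x`, boundary terms at `y = y1, b` bounded by `C y W`):
`(1 - 4 m0^2) int W |c|^2 ≤ C int W |Q| + C bdry` (`H6.EC.rig_ineq`).  `int W |c|^2 = int W Q + I/4`.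
`int W Q = (ν(ν+1)/p^2 - 2 m0 ν/p + m0^2 - 1/4) I + bdry`, coefficient zero at `κ = q^2/4` (`mom0, mom_im,
mom_sq`).  So `int W |Q| ≥ c0 I - C bdry`, `int W Q^- ≥ (c0 - small)/2 I - C bdry`, and
`int W Q^- ≤ η' I + (1/4) int_{Q ≤ -η'} W`; `Q ≤ -η'` implies `|c| ≤ 1/2 - η'`
(`H26.EC.good_mass_of_rig`).
-/

set_option autoImplicit false

open Set Metric MeasureTheory

namespace H13.EC

open H62.CJ

theorem good_mass :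
    ∃ η cG CG q0 ε0 : ℝ, 0 < η ∧ η < 1 / 2 ∧ 0 < cG ∧ 0 ≤ CG ∧ 9 / 10 ≤ q0 ∧ q0 < 1 ∧ 0 < ε0 ∧
      ∀ q κ : ℝ, q0 ≤ q → q < 1 → |κ - q ^ 2 / 4| ≤ ε0 →
      ∀ (F : ℂ → ℂ) (M : ℝ), Cls F M → ∀ x0 y1 b : ℝ, 0 < y1 → y1 < b → b ≤ 1 / 4 →
        cG * I1 F q κ y1 b ≤ (∫ p in RC x0 y1 b ∩ Good F q κ η, WW F q κ (pt p.1 p.2)) +
          CG * (y1 ^ (κ - q + 1) * PP F (2 - q) y1 + b ^ (κ - q + 1) * PP F (2 - q) b) := by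
  obtain ⟨C, hC0, hC⟩ := H6.EC.rig_ineq
  refine H26.EC.good_mass_of_rig C hC0 ?_
  intro q κ hq hq1 hκ F M hF x0 y1 b hy1 hb hb1
  have h := abs_le.1 hκ
  exact hC q κ hq hq1 (by nlinarith [h.1]) (by nlinarith [h.2]) F M hF x0 y1 b hy1 hb.le hb1

end H13.EC
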