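import Pool.Agent.H13.EC.K6
import Pool.Agent.H13.EC.R4

/-!
# EC-A1: `I ≤ C` for regular `F`, for some `q < 1`, `κ < q^2/4` with `(κ + 1 - q)/(2 - q) < 1/4`

PROOF.  `η, cG, CG, q0, ε0` from `good_mass`, `cS` from `exists_fam η`.  Let `κ = q^2/4 - e`, where `e > 0` is so
small that `e ≤ ε0`, `e ≤ 1/1000` and `(q/κ)^(-q) 4 e/(κ (2-q)^2) ≤ cS cG/4` for all `q` in `[9/10, 1)` (the factor
`(q/κ)^(-q)/(κ (2-q)^2) ≤ 10`: `q/κ ≥ 3`, `κ ≥ 1/5 - 1/1000`; so make sure that `κ ≥ 1/5`: take `q0 ≥ 19/20`,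
`q^2/4 ≥ 0.2256`).  Then choose `q < 1` near 1 with `(κ + 1 - q)/(2 - q) < 1/4`, that is (with `p = 2 - q`)
`p^2/4 - e < p/4`.  Then (given `M`) choose `N` with `2 pi q (q/κ)^(1-q)/(1-q) * b/(2 pi) ≤ cS cG/4`, `b = 2 pi/N ≤ 1/4`.
For `K ≥ 1`, `y1 = b/2^K`: `choose_x0` gives `x0`; `exists_fam` gives the family; `integrated` gives with
`mom0`, `mom_im` and `((q/κ)^(-q)/(1-q) - c1 (κ-q+1)/(2-q)) = (q/κ)^(-q) (4κ - q^2)/(κ (2-q)^2)`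
 `cS Good + (q/κ)^(-q) (4κ-q^2)/(κ p^2) I ≤ cS cG/4 I + C0 + C (y1^ν PP(y1) + b^ν PP(b))`, and `good_mass`
 `cS cG I - cS CG (..) ≤ cS Good`.  So `cS cG/2 I ≤ C + C y1^ν PP(y1)`, with `C` independent of `F, K`
(`PP F p b ≤ 2 pi (M/b)^p`: `PP_le`).  Let `K → ∞`: `y1^ν PP(y1) ≤ y1^ν 2 pi L^p → 0`.
-/

set_option autoImplicit false

open Set Metric MeasureTheory

namespace H13.EC

open H62.CJ

theorem A1_R1 (q κ : ℝ) (hq : 0 < q) (hκ : 0 < κ) :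
    (q / κ) ^ (1 - q) = q / κ * (q / κ) ^ (-q) := by
  have h : 0 < q / κ := div_pos hq hκ
  rw [sub_eq_add_neg, Real.rpow_add h, Real.rpow_one]

theorem bracket (q κ : ℝ) (hq : 0 < q) (hq1 : q < 1) (hκ : 0 < κ) :
    (q / κ) ^ (-q) / (1 - q) - c1 q κ * ((κ - q + 1) / (2 - q)) =
      (q / κ) ^ (-q) * (4 * κ - q ^ 2) / (κ * (2 - q) ^ 2) := by
  unfold c1
  rw [A1_R1 q κ hq hκ]
  generalize (q / κ) ^ (-q) = T
  have h1 : (1 - q) ≠ 0 := by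
    intro h
    linarith
  have h2 : (2 - q) ≠ 0 := by
    intro h
    linarith
  have h3 : κ ≠ 0 := hκ.ne'
  field_simp
  ring

/-- the integral on the rectangle of the bracket -/
theorem A1_mom (F : ℂ → ℂ) (M : ℝ) (hF : Cls F M) (q κ x0 y1 b : ℝ) (hq : 0 < q) (hq1 : q < 1)
    (hκ : 0 < κ) (hy1 : 0 < y1) (hb : y1 ≤ b) :
    ∫ p in RC x0 y1 b, WW F q κ (pt p.1 p.2) *
        ((q / κ) ^ (-q) / (1 - q) - c1 q κ * (AA F (pt p.1 p.2)).im) =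
      (q / κ) ^ (-q) * (4 * κ - q ^ 2) / (κ * (2 - q) ^ 2) * I1 F q κ y1 b -
        c1 q κ / (2 - q) *
          (y1 ^ (κ - q + 1) * PP F (2 - q) y1 - b ^ (κ - q + 1) * PP F (2 - q) b) := by
  have i1 : IntegrableOn (fun p : ℝ × ℝ => WW F q κ (pt p.1 p.2)) (RC x0 y1 b) :=
    rc_integrable (WW F q κ) (cont_WW F M hF q κ) x0 y1 b hy1
  have i2 : IntegrableOn (fun p : ℝ × ℝ => WW F q κ (pt p.1 p.2) * (AA F (pt p.1 p.2)).im)
      (RC x0 y1 b) :=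
    rc_integrable (fun z => WW F q κ z * (AA F z).im)
      ((cont_WW F M hF q κ).mul (Complex.continuous_im.comp_continuousOn (cont_AA F M hF)))
      x0 y1 b hy1
  have e : ∫ p in RC x0 y1 b, WW F q κ (pt p.1 p.2) *
        ((q / κ) ^ (-q) / (1 - q) - c1 q κ * (AA F (pt p.1 p.2)).im) =
      (q / κ) ^ (-q) / (1 - q) * (∫ p in RC x0 y1 b, WW F q κ (pt p.1 p.2)) -
      c1 q κ * (∫ p in RC x0 y1 b, WW F q κ (pt p.1 p.2) * (AA F (pt p.1 p.2)).im) := by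
    rw [← integral_const_mul, ← integral_const_mul, ← integral_sub (i1.const_mul _)
      (i2.const_mul _)]
    refine integral_congr_ae (Filter.Eventually.of_forall fun p => ?_)
    simp only
    ring
  rw [e, mom0 F M hF q κ x0 y1 b hy1 hb, mom_im F M hF q κ x0 y1 b hq1 hy1 hb,
    ← bracket q κ hq hq1 hκ]
  ring

theorem A1_c1_nonneg (q κ : ℝ) (hq : 0 < q) (hq1 : q < 1) (hκ : 0 < κ) : 0 ≤ c1 q κ := by
  unfold c1
  have h1 : 0 < 1 - q := by linarith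
  have h2 : 0 < 2 - q := by linarith
  have h : 0 < q / κ := div_pos hq hκ
  have h3 : 0 < (q / κ) ^ (1 - q) := Real.rpow_pos_of_pos h _
  positivity

theorem A1_I1_nonneg (F : ℂ → ℂ) (M : ℝ) (hF : Cls F M) (q κ y1 b : ℝ) (hy1 : 0 < y1)
    (hb : y1 ≤ b) : 0 ≤ I1 F q κ y1 b := by
  unfold I1
  refine intervalIntegral.integral_nonneg hb fun y hy => ?_
  have hy0 : 0 < y := hy1.trans_le hy.1
  exact mul_nonneg (Real.rpow_nonneg hy0.le _) (PP_pos F M hF (2 - q) y hy0).le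

/-- one rectangle -/
theorem A1_step (F : ℂ → ℂ) (M : ℝ) (hF : Cls F M) (q κ x0 y1 b : ℝ) (hq : 0 < q) (hq1 : q < 1)
    (hκ : 0 < κ) (hy1 : 0 < y1) (hb : y1 ≤ b) (cS cG CG C0 g S X : ℝ) (hcS : 0 < cS)
    (hg : cG * I1 F q κ y1 b ≤ g +
      CG * (y1 ^ (κ - q + 1) * PP F (2 - q) y1 + b ^ (κ - q + 1) * PP F (2 - q) b))
    (hS : cS * g ≤ S)
    (hI : S + ∫ p in RC x0 y1 b, WW F q κ (pt p.1 p.2) *
          ((q / κ) ^ (-q) / (1 - q) - c1 q κ * (AA F (pt p.1 p.2)).im) ≤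
      2 * Real.pi * q * (q / κ) ^ (1 - q) / (1 - q) * X + C0)
    (hX : X ≤ b / (2 * Real.pi) * I1 F q κ y1 b)
    (h1 : (q / κ) ^ (-q) * (q ^ 2 - 4 * κ) / (κ * (2 - q) ^ 2) ≤ cS * cG / 4)
    (h2 : q * (q / κ) ^ (1 - q) / (1 - q) * b ≤ cS * cG / 4) :
    cS * cG / 2 * I1 F q κ y1 b ≤
      C0 + (c1 q κ / (2 - q) + cS * CG) * (y1 ^ (κ - q + 1) * PP F (2 - q) y1) +
        cS * CG * (b ^ (κ - q + 1) * PP F (2 - q) b) := by
  rw [A1_mom F M hF q κ x0 y1 b hq hq1 hκ hy1 hb] at hI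
  have hI0 := A1_I1_nonneg F M hF q κ y1 b hy1 hb
  have hc := A1_c1_nonneg q κ hq hq1 hκ
  have hb0 : 0 < b := hy1.trans_le hb
  have hPb : 0 ≤ b ^ (κ - q + 1) * PP F (2 - q) b :=
    mul_nonneg (Real.rpow_nonneg hb0.le _) (PP_pos F M hF (2 - q) b hb0).le
  have hpi := Real.pi_pos
  have h1q : 0 < 1 - q := by linarith
  have h2q : 0 < 2 - q := by linarith
  have hR : 0 < (q / κ) ^ (1 - q) := Real.rpow_pos_of_pos (div_pos hq hκ) _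
  have e1 : 2 * Real.pi * q * (q / κ) ^ (1 - q) / (1 - q) * X ≤ cS * cG / 4 * I1 F q κ y1 b := by
    calc 2 * Real.pi * q * (q / κ) ^ (1 - q) / (1 - q) * X
        ≤ 2 * Real.pi * q * (q / κ) ^ (1 - q) / (1 - q) *
          (b / (2 * Real.pi) * I1 F q κ y1 b) := mul_le_mul_of_nonneg_left hX (by positivity)
      _ = q * (q / κ) ^ (1 - q) / (1 - q) * b * I1 F q κ y1 b := by
        field_simp
      _ ≤ cS * cG / 4 * I1 F q κ y1 b := mul_le_mul_of_nonneg_right h2 hI0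
  have e2 : -((q / κ) ^ (-q) * (4 * κ - q ^ 2) / (κ * (2 - q) ^ 2) * I1 F q κ y1 b) ≤
      cS * cG / 4 * I1 F q κ y1 b := by
    have e3 : -((q / κ) ^ (-q) * (4 * κ - q ^ 2) / (κ * (2 - q) ^ 2) * I1 F q κ y1 b) =
        (q / κ) ^ (-q) * (q ^ 2 - 4 * κ) / (κ * (2 - q) ^ 2) * I1 F q κ y1 b := by ring
    rw [e3]
    exact mul_le_mul_of_nonneg_right h1 hI0
  have e4 : 0 ≤ c1 q κ / (2 - q) * (b ^ (κ - q + 1) * PP F (2 - q) b) := by positivity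
  have e5 := mul_le_mul_of_nonneg_left hg hcS.le
  nlinarith

theorem A1_PP_le (F : ℂ → ℂ) (M : ℝ) (hF : Cls F M) (p y L : ℝ) (hp : 0 ≤ p) (hy : 0 < y)
    (hy1 : y ≤ 1 / 2) (hL : ∀ x y : ℝ, 0 < y → y ≤ 1 / 2 → ‖deriv F (pt x y)‖ ≤ L) :
    PP F p y ≤ 2 * Real.pi * L ^ p := by
  unfold PP
  have h1 : ∫ x in (0 : ℝ)..(2 * Real.pi), ‖deriv F (pt x y)‖ ^ p ≤
      ∫ _x in (0 : ℝ)..(2 * Real.pi), L ^ p := by
    refine intervalIntegral.integral_mono_on (by positivity) (P2_int F M hF p y hy)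
      intervalIntegrable_const fun x _ => ?_
    exact Real.rpow_le_rpow (norm_nonneg _) (hL x y hy hy1) hp
  rw [intervalIntegral.integral_const, smul_eq_mul, sub_zero] at h1
  exact h1

theorem A1_seq (b : ℝ) : Filter.Tendsto (fun K : ℕ => b / 2 ^ K) Filter.atTop (nhds 0) := by
  have h := (tendsto_pow_atTop_nhds_zero_of_lt_one (r := (1 / 2 : ℝ)) (by norm_num)
    (by norm_num)).const_mul b
  rw [mul_zero] at h
  refine h.congr fun K => ?_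
  rw [one_div, inv_pow, div_eq_mul_inv]

theorem A1_lim1 (F : ℂ → ℂ) (M : ℝ) (hF : Cls F M) (p ν b L : ℝ) (hp : 0 ≤ p) (hν : 0 < ν)
    (hb : 0 < b) (hb1 : b ≤ 1 / 2)
    (hL : ∀ x y : ℝ, 0 < y → y ≤ 1 / 2 → ‖deriv F (pt x y)‖ ≤ L) :
    Filter.Tendsto (fun K : ℕ => (b / 2 ^ K) ^ ν * PP F p (b / 2 ^ K)) Filter.atTop (nhds 0) := by
  have h1 : Filter.Tendsto (fun K : ℕ => (b / 2 ^ K) ^ ν * (2 * Real.pi * L ^ p)) Filter.atTop
      (nhds 0) := by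
    have h2 : Filter.Tendsto (fun K : ℕ => (b / 2 ^ K) ^ ν) Filter.atTop (nhds 0) := by
      have h3 := (A1_seq b).rpow_const (p := ν) (Or.inr hν.le)
      rwa [Real.zero_rpow hν.ne'] at h3
    have h4 := h2.mul_const (2 * Real.pi * L ^ p)
    rwa [zero_mul] at h4
  have hy : ∀ K : ℕ, 0 < b / 2 ^ K := fun K => by positivity
  have hy1 : ∀ K : ℕ, b / 2 ^ K ≤ 1 / 2 := fun K =>
    (div_le_self hb.le (one_le_pow₀ (by norm_num))).trans hb1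
  refine squeeze_zero (fun K => ?_) (fun K => ?_) h1
  · exact mul_nonneg (Real.rpow_nonneg (hy K).le _) (PP_pos F M hF p _ (hy K)).le
  · exact mul_le_mul_of_nonneg_left (A1_PP_le F M hF p _ L hp (hy K) (hy1 K) hL)
      (Real.rpow_nonneg (hy K).le _)

theorem A1_lim2 (f : ℝ → ℝ) (b : ℝ) (hb : 0 < b) (hf : IntegrableOn f (Ioc 0 b)) :
    Filter.Tendsto (fun K : ℕ => ∫ y in (b / 2 ^ K)..b, f y) Filter.atTop
      (nhds (∫ y in Ioc 0 b, f y)) := by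
  have h0 : IntegrableOn f (uIcc 0 b) := by
    rw [uIcc_of_le hb.le, integrableOn_Icc_iff_integrableOn_Ioc]
    exact hf
  have h1 : ContinuousOn (fun x => ∫ t in x..b, f t) (Icc 0 b) := by
    have h := intervalIntegral.continuousOn_primitive_interval_left h0
    rwa [uIcc_of_le hb.le] at h
  have h2 := h1 0 (left_mem_Icc.2 hb.le)
  have h3 : Filter.Tendsto (fun K : ℕ => b / 2 ^ K) Filter.atTop (nhdsWithin 0 (Icc 0 b)) := by
    refine tendsto_nhdsWithin_iff.2 ⟨A1_seq b, Filter.Eventually.of_forall fun K => ?_⟩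
    exact ⟨by positivity, div_le_self hb.le (one_le_pow₀ (by norm_num))⟩
  have h4 := h2.tendsto.comp h3
  rw [intervalIntegral.integral_of_le hb.le] at h4
  exact h4

/-- passage to the limit -/
theorem A1_pass (F : ℂ → ℂ) (M : ℝ) (hF : Cls F M) (q κ b L C1 C2 : ℝ) (hq1 : q < 1)
    (hν : 0 < κ - q + 1) (hb : 0 < b) (hb1 : b ≤ 1 / 2) (hC1 : 0 ≤ C1)
    (hL : ∀ x y : ℝ, 0 < y → y ≤ 1 / 2 → ‖deriv F (pt x y)‖ ≤ L)
    (h : ∀ K : ℕ, 1 ≤ K → I1 F q κ (b / 2 ^ K) b ≤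
      C1 + C2 * ((b / 2 ^ K) ^ (κ - q + 1) * PP F (2 - q) (b / 2 ^ K))) :
    ∫ y in Ioc 0 b, y ^ (κ - q) * PP F (2 - q) y ≤ C1 := by
  by_cases hf : IntegrableOn (fun y => y ^ (κ - q) * PP F (2 - q) y) (Ioc 0 b)
  · have h1 := A1_lim2 _ b hb hf
    have h2 := (A1_lim1 F M hF (2 - q) (κ - q + 1) b L (by linarith) hν hb hb1 hL).const_mul C2
    have h3 := h2.const_add C1
    rw [mul_zero, add_zero] at h3
    refine le_of_tendsto_of_tendsto h1 h3 ?_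
    filter_upwards [Filter.eventually_ge_atTop 1] with K hK
    exact h K hK
  · rw [integral_undef hf]
    exact hC1

theorem A1_par (q0 ε0 c : ℝ) (hq0 : q0 < 1) (hε0 : 0 < ε0) (hc : 0 < c) :
    ∃ q κ : ℝ, 19 / 20 ≤ q ∧ q < 1 ∧ q0 ≤ q ∧ 1 / 5 ≤ κ ∧ κ ≤ 1 / 4 ∧ |κ - q ^ 2 / 4| ≤ ε0 ∧
      (κ + 1 - q) / (2 - q) < 1 / 4 ∧
      (q / κ) ^ (-q) * (q ^ 2 - 4 * κ) / (κ * (2 - q) ^ 2) ≤ c / 4 := by
  obtain ⟨e, he0, he1, he2, he3⟩ : ∃ e : ℝ, 0 < e ∧ e ≤ ε0 ∧ e ≤ 1 / 1000 ∧ 80 * e ≤ c := by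
    refine ⟨min ε0 (min (1 / 1000) (c / 80)), by positivity, min_le_left _ _,
      (min_le_right _ _).trans (min_le_left _ _), ?_⟩
    have h : min ε0 (min (1 / 1000) (c / 80)) ≤ c / 80 :=
      (min_le_right _ _).trans (min_le_right _ _)
    linarith
  obtain ⟨s, hs0, hs1, hs2⟩ : ∃ s : ℝ, 0 < s ∧ s ≤ e ∧ s ≤ 1 - q0 := by
    have h : 0 < 1 - q0 := by linarith
    exact ⟨min e (1 - q0), by positivity, min_le_left _ _, min_le_right _ _⟩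
  have hs3 : s ≤ 1 / 1000 := hs1.trans he2
  have hκ : 1 / 5 ≤ (1 - s) ^ 2 / 4 - e := by nlinarith
  refine ⟨1 - s, (1 - s) ^ 2 / 4 - e, by linarith, by linarith, by linarith, hκ, by nlinarith,
    ?_, ?_, ?_⟩
  · have h : (1 - s) ^ 2 / 4 - e - (1 - s) ^ 2 / 4 = -e := by ring
    rw [h, abs_neg, abs_of_pos he0]
    exact he1
  · rw [div_lt_iff₀ (by linarith)]
    nlinarith
  · generalize hκ' : (1 - s) ^ 2 / 4 - e = κ at hκ ⊢
    have h1 : (1 - s) ^ 2 - 4 * κ = 4 * e := by linarith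
    rw [h1]
    have hκ0 : 0 < κ := by linarith
    have h2 : 1 ≤ (1 - s) / κ := by
      rw [le_div_iff₀ hκ0]
      nlinarith
    have h3 : ((1 - s) / κ) ^ (-(1 - s)) ≤ 1 :=
      Real.rpow_le_one_of_one_le_of_nonpos h2 (by linarith)
    have h4 : 1 / 5 ≤ κ * (2 - (1 - s)) ^ 2 := by nlinarith
    rw [div_le_iff₀ (by linarith)]
    have h5 : ((1 - s) / κ) ^ (-(1 - s)) * (4 * e) ≤ 1 * (4 * e) :=
      mul_le_mul_of_nonneg_right h3 (by linarith)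
    nlinarith

theorem main_int : ∃ q κ : ℝ, 0 < q ∧ q < 1 ∧ 0 < κ ∧ κ < q ∧ (κ + 1 - q) / (2 - q) < 1 / 4 ∧
    ∀ M : ℝ, ∃ b C0 : ℝ, 0 < b ∧ b ≤ 1 / 4 ∧ ∀ F : ℂ → ℂ, Cls F M →
      (∃ L : ℝ, ∀ x y : ℝ, 0 < y → y ≤ 1 / 2 → ‖deriv F (pt x y)‖ ≤ L) →
      ∫ y in Ioc 0 b, y ^ (κ - q) * PP F (2 - q) y ≤ C0 := by
  obtain ⟨η, cG, CG, q0, ε0, hη, hη1, hcG, hCG, _, hq0, hε0, hgood⟩ := good_mass
  obtain ⟨cS, hcS, hfam⟩ := exists_fam η hη hη1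
  have hc : 0 < cS * cG := mul_pos hcS hcG
  obtain ⟨q, κ, hqa, hq1, hq0', hκ1, hκ2, hκe, hlt, hR⟩ := A1_par q0 ε0 (cS * cG) hq0 hε0 hc
  have hq : 0 < q := by linarith
  have hκ : 0 < κ := by linarith
  refine ⟨q, κ, hq, hq1, hκ, by linarith, hlt, fun M => ?_⟩
  have hpi := Real.pi_pos
  have hpi2 := Real.pi_lt_d2
  -- the constant
  obtain ⟨T, hT⟩ : ∃ T : ℝ, T = q * (q / κ) ^ (1 - q) / (1 - q) := ⟨_, rfl⟩
  have hT0 : 0 < T := by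
    rw [hT]
    have h1 : 0 < (q / κ) ^ (1 - q) := Real.rpow_pos_of_pos (div_pos hq hκ) _
    have h2 : 0 < 1 - q := by linarith
    positivity
  obtain ⟨N0, hN0⟩ := exists_nat_gt (T * (2 * Real.pi) / (cS * cG / 4))
  obtain ⟨N, hN1, hN2⟩ : ∃ N : ℕ, 26 ≤ N ∧ N0 ≤ N := ⟨max 26 N0, le_max_left _ _, le_max_right _ _⟩
  have hN : (26 : ℝ) ≤ N := by exact_mod_cast hN1
  have hN' : (N0 : ℝ) ≤ N := by exact_mod_cast hN2
  have hNpos : (0 : ℝ) < N := by linarith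
  obtain ⟨b, hbdef⟩ : ∃ b : ℝ, b = 2 * Real.pi / N := ⟨_, rfl⟩
  have hb0 : 0 < b := by
    rw [hbdef]
    positivity
  have hb1 : b ≤ 1 / 4 := by
    rw [hbdef, div_le_iff₀ hNpos]
    linarith
  have h2 : q * (q / κ) ^ (1 - q) / (1 - q) * b ≤ cS * cG / 4 := by
    rw [← hT, hbdef, ← mul_div_assoc, div_le_iff₀ hNpos]
    have h3 : T * (2 * Real.pi) < N0 * (cS * cG / 4) := (div_lt_iff₀ (by positivity)).1 hN0
    have h4 : N0 * (cS * cG / 4) ≤ cS * cG / 4 * N := by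
      rw [mul_comm]
      exact mul_le_mul_of_nonneg_left hN' (by positivity)
    linarith
  obtain ⟨Ci, hCi, hint⟩ := integrated M q κ b hq hq1 hκ hb0 hb1
  obtain ⟨B, hB⟩ : ∃ B : ℝ, B = b ^ (κ - q + 1) * (2 * Real.pi * (M / b) ^ (2 - q)) := ⟨_, rfl⟩
  obtain ⟨D, hD⟩ : ∃ D : ℝ, D = 2 / (cS * cG) * (Ci + cS * CG * |B|) := ⟨_, rfl⟩
  have hD0 : 0 ≤ D := by
    rw [hD]
    positivity
  refine ⟨b, D, hb0, hb1, fun F hF => ?_⟩
  rintro ⟨L, hL⟩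
  refine A1_pass F M hF q κ b L D (2 / (cS * cG) * (c1 q κ / (2 - q) + cS * CG)) hq1
    (by linarith) hb0 (by linarith) hD0 hL fun K hK => ?_
  have hy0 : 0 < b / 2 ^ K := by positivity
  have hyb : b / 2 ^ K < b := div_lt_self hb0 (one_lt_pow₀ (by norm_num) (by omega))
  obtain ⟨x0, _, hx0⟩ := choose_x0 F M hF q κ (b / 2 ^ K) b hy0 hyb.le
  obtain ⟨ι, s, c, ρ, ω, σ, γ, δ0, hIs, hgain⟩ :=
    hfam q κ (by linarith) hq1 hκ1 hκ2 F M hF N K hN1 hK x0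
  rw [← hbdef] at hIs hgain
  have hg := hgood q κ hq0' hq1 hκe F M hF x0 (b / 2 ^ K) b hy0 hyb hb1
  have hI := hint F hF x0 (b / 2 ^ K) hy0 hyb ι s c ρ ω σ γ δ0 hIs
  have hs := A1_step F M hF q κ x0 (b / 2 ^ K) b hq hq1 hκ hy0 hyb.le cS cG CG Ci _ _ _ hcS hg
    hgain hI hx0 hR h2
  have hPP : b ^ (κ - q + 1) * PP F (2 - q) b ≤ |B| := by
    refine le_trans ?_ (le_abs_self B)
    rw [hB]
    exact mul_le_mul_of_nonneg_left (PP_le F M hF (2 - q) b (by linarith) hb0 (by linarith))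
      (Real.rpow_nonneg hb0.le _)
  have hPP2 : cS * CG * (b ^ (κ - q + 1) * PP F (2 - q) b) ≤ cS * CG * |B| :=
    mul_le_mul_of_nonneg_left hPP (by positivity)
  have hfin : cS * cG / 2 * I1 F q κ (b / 2 ^ K) b ≤ Ci + cS * CG * |B| +
      (c1 q κ / (2 - q) + cS * CG) *
        ((b / 2 ^ K) ^ (κ - q + 1) * PP F (2 - q) (b / 2 ^ K)) := by linarith
  have hc2 : 0 ≤ 2 / (cS * cG) := by positivity
  have h5 := mul_le_mul_of_nonneg_left hfin hc2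
  have h6 : 2 / (cS * cG) * (cS * cG / 2 * I1 F q κ (b / 2 ^ K) b) = I1 F q κ (b / 2 ^ K) b := by
    have h7 : cS * cG ≠ 0 := hc.ne'
    field_simp
  rw [h6] at h5
  rw [hD]
  linarith

end H13.EC
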