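import Pool.Agent.H13.EC.A1
import Pool.Agent.H78.CN.Pb
import Pool.Agent.H78.CN.Ho

/-!
# EC-A2: the bound for `PP F 1`

PROOF.  As in `Pool.Agent.H78.CN.Pb` (`pbound_of_int`, without the hypothesis `NP`): `PP F (2-q) y ≤ C y^(-(κ+1-q))`
for `y ≤ 1`, then Hoelder (`Pool.Agent.H78.CN.Ho.holder`).
-/

set_option autoImplicit false

open Set Metric MeasureTheory

namespace H13.EC

open H62.CJ

theorem A2_main (M q eta b C0 : ℝ) (hq : 0 < q) (hq1 : q < 1) (he : 0 < eta)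
    (heq : eta < q) (hb : 0 < b) (hb1 : b ≤ 1 / 4)
    (hI : ∀ F : ℂ → ℂ, Cls F M →
      (∃ L : ℝ, ∀ x y : ℝ, 0 < y → y ≤ 1 / 2 → ‖deriv F (pt x y)‖ ≤ L) →
      ∫ y in Ioc 0 b, y ^ (eta - q) * PP F (2 - q) y ≤ C0)
    (F : ℂ → ℂ) (hF : Cls F M) (h3 : ∀ z : ℂ, 0 < z.im → z.im ≤ 3 → ‖F z‖ ≤ M)
    (τ : ℝ) (hτ : 0 < τ) (hτ1 : τ < b / 4) :
    PP F (2 - q) (2 * τ) ≤
      2 * C0 * (3 / 2) ^ (4 * (2 - q)) * (2 * τ) ^ (-(eta + 1 - q)) := by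
  have hG := shift_cls F M hF h3 τ hτ.le (by linarith)
  have hL : ∀ x y : ℝ, 0 < y → y ≤ 1 / 2 →
      ‖deriv (fun z => F (z + (τ : ℂ) * Complex.I)) (pt x y)‖ ≤ M / τ :=
    fun x y hy hy1 => H78.CN.shift_bdd F M hF τ hτ (by linarith) x y hy hy1
  have hI2 := hI _ hG ⟨M / τ, hL⟩
  have hint := (H78.CN.mo_int _ M hG (M / τ) hL (2 - q) (eta - q + 1) b (by linarith)
    (by linarith) hb (by linarith)).1
  rw [show eta - q + 1 - 1 = eta - q by ring] at hint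
  set G : ℂ → ℂ := fun z => F (z + (τ : ℂ) * Complex.I) with hGdef
  have hPP : ∀ y : ℝ, PP G (2 - q) y = PP F (2 - q) (y + τ) :=
    fun y => H78.CN.Pb_PP F τ (2 - q) y
  set Y : ℝ := (3 / 2 : ℝ) ^ (4 * (2 - q)) with hYdef
  have hY : 0 < Y := Real.rpow_pos_of_pos (by norm_num) _
  have h2τ : 0 < 2 * τ := by linarith
  have q4 : ∫ y in Ioc τ (2 * τ), y ^ (eta - q) * PP G (2 - q) y ≤
      ∫ y in Ioc 0 b, y ^ (eta - q) * PP G (2 - q) y := by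
    refine setIntegral_mono_set hint ?_ ?_
    · filter_upwards [ae_restrict_mem measurableSet_Ioc] with y hy
      exact mul_nonneg (Real.rpow_nonneg hy.1.le _) (PP_pos G M hG _ y hy.1).le
    · exact (Ioc_subset_Ioc hτ.le (by linarith)).eventuallyLE
  have q5 : τ * ((2 * τ) ^ (eta - q) * Y⁻¹ * PP F (2 - q) (2 * τ)) ≤
      ∫ y in Ioc τ (2 * τ), y ^ (eta - q) * PP G (2 - q) y := by
    have e1 : τ * ((2 * τ) ^ (eta - q) * Y⁻¹ * PP F (2 - q) (2 * τ)) =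
        ∫ y in Ioc τ (2 * τ), ((2 * τ) ^ (eta - q) * Y⁻¹ * PP F (2 - q) (2 * τ)) := by
      rw [← intervalIntegral.integral_of_le (by linarith), intervalIntegral.integral_const,
        smul_eq_mul]
      ring
    rw [e1]
    refine setIntegral_mono_on (integrableOn_const (by
      rw [Real.volume_Ioc]
      exact ENNReal.ofReal_ne_top)) (hint.mono_set (Ioc_subset_Ioc hτ.le (by linarith)))
      measurableSet_Ioc ?_
    intro y hy
    have hy1 : 0 < y := hτ.trans hy.1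
    have f1 : (2 * τ) ^ (eta - q) ≤ y ^ (eta - q) :=
      Real.rpow_le_rpow_of_nonpos hy1 hy.2 (by linarith)
    have f2 : PP F (2 - q) (2 * τ) ≤ Y * PP G (2 - q) y := by
      rw [hPP]
      have g1 := PP_harnack1 F M hF (2 - q) (2 * τ) (y + τ) (by linarith) (by linarith)
        (by linarith [hy.1]) (by linarith [hy.2])
      refine g1.trans ?_
      have g2 : ((y + τ) / (2 * τ)) ^ (4 * (2 - q)) ≤ Y := by
        refine Real.rpow_le_rpow (by positivity) ?_ (by linarith)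
        rw [div_le_iff₀ (by linarith)]
        linarith [hy.2]
      exact mul_le_mul_of_nonneg_right g2 (PP_pos F M hF _ _ (by linarith)).le
    have f3 : Y⁻¹ * PP F (2 - q) (2 * τ) ≤ PP G (2 - q) y := by
      rw [inv_mul_le_iff₀ hY]
      exact f2
    have f4 : 0 ≤ Y⁻¹ * PP F (2 - q) (2 * τ) :=
      mul_nonneg (inv_nonneg.2 hY.le) (PP_pos F M hF _ _ (by linarith)).le
    rw [mul_assoc]
    exact mul_le_mul f1 f3 f4 (Real.rpow_nonneg hy1.le _)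
  have q6 : τ * ((2 * τ) ^ (eta - q) * Y⁻¹ * PP F (2 - q) (2 * τ)) ≤ C0 :=
    q5.trans (q4.trans hI2)
  have e5 : (2 * τ) ^ (-(eta + 1 - q)) * ((2 * τ) ^ (eta - q) * (2 * τ)) = 1 := by
    have e6 : (2 * τ) ^ (eta - q) * (2 * τ) = (2 * τ) ^ (eta - q + 1) := by
      rw [Real.rpow_add h2τ, Real.rpow_one]
    rw [e6, ← Real.rpow_add h2τ, show -(eta + 1 - q) + (eta - q + 1) = 0 by ring, Real.rpow_zero]
  have hZ : 0 < (2 * τ) ^ (-(eta + 1 - q)) := Real.rpow_pos_of_pos h2τ _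
  have e8 : PP F (2 - q) (2 * τ) = (τ * ((2 * τ) ^ (eta - q) * Y⁻¹ * PP F (2 - q) (2 * τ))) *
      (2 * Y * (2 * τ) ^ (-(eta + 1 - q))) := by
    have e9 : (τ * ((2 * τ) ^ (eta - q) * Y⁻¹ * PP F (2 - q) (2 * τ))) *
        (2 * Y * (2 * τ) ^ (-(eta + 1 - q))) =
        ((2 * τ) ^ (-(eta + 1 - q)) * ((2 * τ) ^ (eta - q) * (2 * τ))) * (Y⁻¹ * Y) *
          PP F (2 - q) (2 * τ) := by ring
    rw [e9, e5, inv_mul_cancel₀ hY.ne']
    ring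
  rw [e8]
  calc (τ * ((2 * τ) ^ (eta - q) * Y⁻¹ * PP F (2 - q) (2 * τ))) *
        (2 * Y * (2 * τ) ^ (-(eta + 1 - q)))
      ≤ C0 * (2 * Y * (2 * τ) ^ (-(eta + 1 - q))) :=
        mul_le_mul_of_nonneg_right q6 (by positivity)
    _ = 2 * C0 * Y * (2 * τ) ^ (-(eta + 1 - q)) := by ring

theorem A2_pbound (M q eta b C0 : ℝ) (hq : 0 < q) (hq1 : q < 1) (he : 0 < eta)
    (heq : eta < q) (hb : 0 < b) (hb1 : b ≤ 1 / 4)
    (hI : ∀ F : ℂ → ℂ, Cls F M →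
      (∃ L : ℝ, ∀ x y : ℝ, 0 < y → y ≤ 1 / 2 → ‖deriv F (pt x y)‖ ≤ L) →
      ∫ y in Ioc 0 b, y ^ (eta - q) * PP F (2 - q) y ≤ C0) :
    ∃ C : ℝ, 0 < C ∧ ∀ F : ℂ → ℂ, Cls F M →
      (∀ z : ℂ, 0 < z.im → z.im ≤ 3 → ‖F z‖ ≤ M) → ∀ y : ℝ, 0 < y → y ≤ 1 →
        PP F (2 - q) y ≤ C * y ^ (-(eta + 1 - q)) := by
  have hP1 : 0 ≤ 2 * |C0| * (3 / 2 : ℝ) ^ (4 * (2 - q)) :=
    mul_nonneg (by positivity) (Real.rpow_nonneg (by norm_num) _)
  have hP2 : 0 ≤ 2 * Real.pi * (|M| / (b / 2)) ^ (2 - q) :=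
    mul_nonneg (by positivity) (Real.rpow_nonneg (by positivity) _)
  refine ⟨2 * |C0| * (3 / 2 : ℝ) ^ (4 * (2 - q)) + 2 * Real.pi * (|M| / (b / 2)) ^ (2 - q) + 1,
    by linarith, ?_⟩
  intro F hF h3 y hy hy1
  have hyn : 0 ≤ y ^ (-(eta + 1 - q)) := Real.rpow_nonneg hy.le _
  by_cases hc : y < b / 2
  · have h := A2_main M q eta b C0 hq hq1 he heq hb hb1 hI F hF h3 (y / 2) (by linarith)
      (by linarith)
    rw [show 2 * (y / 2) = y by ring] at h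
    refine h.trans (mul_le_mul_of_nonneg_right ?_ hyn)
    have h1 : 2 * C0 * (3 / 2 : ℝ) ^ (4 * (2 - q)) ≤ 2 * |C0| * (3 / 2 : ℝ) ^ (4 * (2 - q)) :=
      mul_le_mul_of_nonneg_right (by linarith [le_abs_self C0])
        (Real.rpow_nonneg (by norm_num) _)
    linarith
  · push Not at hc
    have hM : 0 ≤ M := (norm_nonneg _).trans (hF.bdd (pt 0 1) (by simp) (by simp))
    have h1 := PP_le F M hF (2 - q) y (by linarith) hy hy1
    have h2 : M / y ≤ |M| / (b / 2) := by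
      rw [abs_of_nonneg hM]
      exact div_le_div_of_nonneg_left hM (by linarith) hc
    have h3' : (M / y) ^ (2 - q) ≤ (|M| / (b / 2)) ^ (2 - q) :=
      Real.rpow_le_rpow (by positivity) h2 (by linarith)
    have h4 : PP F (2 - q) y ≤ 2 * Real.pi * (|M| / (b / 2)) ^ (2 - q) :=
      h1.trans (mul_le_mul_of_nonneg_left h3' (by positivity))
    have h5 : (1 : ℝ) ≤ y ^ (-(eta + 1 - q)) :=
      Real.one_le_rpow_of_pos_of_le_one_of_nonpos hy hy1 (by linarith)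
    have h6 : (2 * |C0| * (3 / 2 : ℝ) ^ (4 * (2 - q)) +
        2 * Real.pi * (|M| / (b / 2)) ^ (2 - q) + 1) * 1 ≤
        (2 * |C0| * (3 / 2 : ℝ) ^ (4 * (2 - q)) +
        2 * Real.pi * (|M| / (b / 2)) ^ (2 - q) + 1) * y ^ (-(eta + 1 - q)) :=
      mul_le_mul_of_nonneg_left h5 (by linarith)
    linarith

theorem P1_main : ∃ β : ℝ, 0 < β ∧ β < 1 / 4 ∧ ∀ M : ℝ, ∃ C : ℝ, 0 < C ∧ ∀ F : ℂ → ℂ, Cls F M →
    (∀ z : ℂ, 0 < z.im → z.im ≤ 3 → ‖F z‖ ≤ M) → ∀ y : ℝ, 0 < y → y ≤ 1 →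
      PP F 1 y ≤ C * y ^ (-β) := by
  obtain ⟨q, κ, hq, hq1, hκ, hκq, hlt, h⟩ := main_int
  have hp : 0 < 2 - q := by linarith
  refine ⟨(κ + 1 - q) / (2 - q), div_pos (by linarith) hp, hlt, ?_⟩
  intro M
  obtain ⟨b, C0, hb, hb1, hI⟩ := h M
  obtain ⟨C, hC, hCF⟩ := A2_pbound M q κ b C0 hq hq1 hκ hκq hb hb1 hI
  refine ⟨(2 * Real.pi) ^ (1 - 1 / (2 - q)) * C ^ (1 / (2 - q)),
    mul_pos (Real.rpow_pos_of_pos (by positivity) _) (Real.rpow_pos_of_pos hC _), ?_⟩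
  intro F hF h3 y hy hy1
  have h1 := hCF F hF h3 y hy hy1
  have h2 := H78.CN.holder F M hF (2 - q) y (by linarith) hy
  have h4 : (PP F (2 - q) y) ^ (1 / (2 - q)) ≤ (C * y ^ (-(κ + 1 - q))) ^ (1 / (2 - q)) :=
    Real.rpow_le_rpow (PP_pos F M hF _ y hy).le h1 (by positivity)
  have h5 : (C * y ^ (-(κ + 1 - q))) ^ (1 / (2 - q)) =
      C ^ (1 / (2 - q)) * y ^ (-((κ + 1 - q) / (2 - q))) := by
    rw [Real.mul_rpow hC.le (Real.rpow_nonneg hy.le _), ← Real.rpow_mul hy.le]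
    congr 2
    ring
  rw [h5] at h4
  calc PP F 1 y ≤ (2 * Real.pi) ^ (1 - 1 / (2 - q)) * (PP F (2 - q) y) ^ (1 / (2 - q)) := h2
    _ ≤ (2 * Real.pi) ^ (1 - 1 / (2 - q)) *
        (C ^ (1 / (2 - q)) * y ^ (-((κ + 1 - q) / (2 - q)))) :=
        mul_le_mul_of_nonneg_left h4 (Real.rpow_nonneg (by positivity) _)
    _ = (2 * Real.pi) ^ (1 - 1 / (2 - q)) * C ^ (1 / (2 - q)) *
        y ^ (-((κ + 1 - q) / (2 - q))) := by ring

end H13.EC
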