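import Pool.Agent.H13.EC.A2
import Pool.Agent.H62.CJ.Z1
import Pool.Agent.H62.CJ.Z2
import Pool.Agent.H62.CJ.Z3

/-!
# EC-A3: coefficients and the frozen statement

PROOF.  `coef`: as `Pool.Agent.H62.CJ.Z4` with `PP FF 1 (1/n) ≤ C n^β`.  `not_conj`: if the first limit were `-3/4`
then for `n` large `log s_n ≥ (-3/4 - ε) log n` with `ε = (1/4 - β)/2`; but `s_n ≤ C n^(-1+β)` (sSup of a set bounded by
`C n^(-1+β)`, nonempty, and `s_n > 0` as otherwise `log s_n = 0`, the ratio is `0`; careful with `log 0`), so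
`log s_n ≤ log C + (-1+β) log n`: the ratio is `≤ -1 + β + log C/log n < -3/4 - ε` for `n` large: contradiction.
If `s_n = 0` the ratio is `0`, which is also not near `-3/4`.
-/

set_option autoImplicit false

open Set Metric MeasureTheory

namespace H13.EC

open H62.CJ

theorem A3_coef {β a P K : ℝ} {n : ℕ} (hn : 1 ≤ n) (hK : 0 < K)
    (ha : a ≤ Real.exp 1 / (2 * Real.pi * n) * P)
    (hP : P ≤ K * (1 / (n : ℝ)) ^ (-β)) :
    a ≤ K * (n : ℝ) ^ (-1 + β) := by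
  have hn0 : (0 : ℝ) < n := by exact_mod_cast hn
  have h1 : (1 / (n : ℝ)) ^ (-β) = (n : ℝ) ^ β := by
    rw [one_div, Real.inv_rpow hn0.le, Real.rpow_neg hn0.le, inv_inv]
  rw [h1] at hP
  have he : Real.exp 1 / (2 * Real.pi * n) ≤ (n : ℝ) ^ (-1 : ℝ) := by
    rw [Real.rpow_neg_one, ← one_div, div_le_div_iff₀ (by positivity) hn0]
    have h2 := Real.exp_one_lt_d9
    have h3 := Real.pi_gt_three
    have h4 : Real.exp 1 ≤ 2 * Real.pi := by linarith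
    calc Real.exp 1 * n ≤ 2 * Real.pi * n := mul_le_mul_of_nonneg_right h4 hn0.le
      _ = 1 * (2 * Real.pi * n) := by ring
  have h5 : (n : ℝ) ^ (-1 + β) = (n : ℝ) ^ (-1 : ℝ) * (n : ℝ) ^ β := Real.rpow_add hn0 _ _
  have hpos : 0 ≤ Real.exp 1 / (2 * Real.pi * n) := by positivity
  calc a ≤ Real.exp 1 / (2 * Real.pi * n) * P := ha
    _ ≤ Real.exp 1 / (2 * Real.pi * n) * (K * (n : ℝ) ^ β) :=
      mul_le_mul_of_nonneg_left hP hpos
    _ ≤ (n : ℝ) ^ (-1 : ℝ) * (K * (n : ℝ) ^ β) :=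
      mul_le_mul_of_nonneg_right he (by positivity)
    _ = K * (n : ℝ) ^ (-1 + β) := by rw [h5]; ring

theorem coef : ∃ β C : ℝ, 0 < β ∧ β < 1 / 4 ∧ 0 < C ∧
    (∀ f : ℂ → ℂ, DifferentiableOn ℂ f (ball 0 1) → InjOn f (ball 0 1) → f 0 = 0 →
      (∀ z ∈ ball (0 : ℂ) 1, ‖f z‖ ≤ 1) → ∀ n : ℕ, 1 ≤ n →
        ‖iteratedDeriv n f 0‖ / (n.factorial : ℝ) ≤ C * (n : ℝ) ^ (-1 + β)) ∧
    (∀ h : ℂ → ℂ, DifferentiableOn ℂ h (ball 0 1) → h 0 = 0 →
      InjOn (fun z : ℂ => z + h z⁻¹) {z : ℂ | 1 < ‖z‖} → ∀ n : ℕ, 1 ≤ n →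
        ‖iteratedDeriv n h 0‖ / (n.factorial : ℝ) ≤ C * (n : ℝ) ^ (-1 + β)) := by
  obtain ⟨β, hβ, hβ4, hmain⟩ := P1_main
  obtain ⟨C1, hC1, h1⟩ := hmain 1
  obtain ⟨C2, hC2, h2⟩ := hmain (Real.exp 4 + 1)
  have hCC : 0 < C1 + C2 := add_pos hC1 hC2
  have hinv : ∀ n : ℕ, 1 ≤ n → 0 < 1 / (n : ℝ) ∧ 1 / (n : ℝ) ≤ 1 := by
    intro n hn
    have hn0 : (1 : ℝ) ≤ n := by exact_mod_cast hn
    exact ⟨by positivity, (div_le_one (by linarith)).2 hn0⟩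
  refine ⟨β, C1 + C2, hβ, hβ4, hCC, ?_, ?_⟩
  · intro f hd hi h0 hb
    obtain ⟨hcl, hbd⟩ := S1_cls f hd hi h0 hb
    have hP : ∀ y : ℝ, 0 < y → y ≤ 1 → PP (FF f) 1 y ≤ (C1 + C2) * y ^ (-β) := by
      intro y hy hy1
      refine (h1 (FF f) hcl hbd y hy hy1).trans ?_
      exact mul_le_mul_of_nonneg_right (by linarith) (Real.rpow_nonneg hy.le _)
    intro n hn
    have hc := coeff_bound f hd 0 n hn
    have he : (fun ξ : ℂ => 0 * ξ⁻¹ + f ξ) = f := by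
      funext ξ
      rw [zero_mul, zero_add]
    rw [he] at hc
    exact A3_coef hn hCC hc (hP _ (hinv n hn).1 (hinv n hn).2)
  · intro h hd h0 hi
    obtain ⟨hcl, hbd⟩ := S2_cls h hd h0 hi
    have hP : ∀ y : ℝ, 0 < y → y ≤ 1 →
        PP (FF (fun ξ => ξ⁻¹ + h ξ)) 1 y ≤ (C1 + C2) * y ^ (-β) := by
      intro y hy hy1
      refine (h2 _ hcl hbd y hy hy1).trans ?_
      exact mul_le_mul_of_nonneg_right (by linarith) (Real.rpow_nonneg hy.le _)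
    intro n hn
    have hc := coeff_bound h hd 1 n hn
    have he : (fun ξ : ℂ => 1 * ξ⁻¹ + h ξ) = fun ξ => ξ⁻¹ + h ξ := by
      funext ξ
      rw [one_mul]
    rw [he] at hc
    exact A3_coef hn hCC hc (hP _ (hinv n hn).1 (hinv n hn).2)

/-- the abstract limit argument -/
theorem A3_limit (S : ℕ → Set ℝ) (β C : ℝ) (hβ0 : 0 < β) (hβ : β < 1 / 4) (hC : 0 < C)
    (hS0 : ∀ n, ∀ x ∈ S n, 0 ≤ x)
    (hS : ∀ n : ℕ, 1 ≤ n → ∀ x ∈ S n, x ≤ C * (n : ℝ) ^ (-1 + β)) :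
    ¬ Filter.Tendsto (fun n : ℕ => Real.log (sSup (S n)) / Real.log (n : ℝ))
      Filter.atTop (nhds (-3 / 4 : ℝ)) := by
  intro ht
  set ε := (1 / 4 - β) / 2 with hε
  have hε0 : 0 < ε := by rw [hε]; linarith
  have hlog : Filter.Tendsto (fun n : ℕ => Real.log (n : ℝ)) Filter.atTop Filter.atTop :=
    Real.tendsto_log_atTop.comp tendsto_natCast_atTop_atTop
  have h1 : Filter.Tendsto (fun n : ℕ => Real.log C / Real.log (n : ℝ)) Filter.atTop (nhds 0) :=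
    Filter.Tendsto.div_atTop tendsto_const_nhds hlog
  have e1 := h1.eventually (eventually_lt_nhds hε0)
  have e2 := ht.eventually (eventually_gt_nhds (show -3 / 4 - ε < (-3 / 4 : ℝ) by linarith))
  have e3 := ht.eventually (eventually_lt_nhds (show (-3 / 4 : ℝ) < 0 by norm_num))
  have e4 := Filter.eventually_ge_atTop (α := ℕ) 2
  obtain ⟨n, ⟨⟨⟨f1, f2⟩, f3⟩, f4⟩⟩ := (((e1.and e2).and e3).and e4).exists
  have hn1 : 1 ≤ n := by omega
  have hn0 : (0 : ℝ) < n := by exact_mod_cast hn1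
  have hn2 : (1 : ℝ) < n := by exact_mod_cast (by omega : 1 < n)
  have hl : 0 < Real.log (n : ℝ) := Real.log_pos hn2
  have hpos : 0 < C * (n : ℝ) ^ (-1 + β) := by positivity
  have hle : sSup (S n) ≤ C * (n : ℝ) ^ (-1 + β) := Real.sSup_le (hS n hn1) hpos.le
  have hge : 0 ≤ sSup (S n) := Real.sSup_nonneg (hS0 n)
  have hs : 0 < sSup (S n) := by
    rcases hge.lt_or_eq with h | h
    · exact h
    · rw [← h, Real.log_zero, zero_div] at f3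
      exact absurd f3 (lt_irrefl _)
  have h5 : Real.log (sSup (S n)) ≤ Real.log C + (-1 + β) * Real.log n := by
    rw [← Real.log_rpow hn0, ← Real.log_mul hC.ne' (Real.rpow_pos_of_pos hn0 _).ne']
    exact Real.log_le_log hs hle
  have h6 : Real.log (sSup (S n)) / Real.log (n : ℝ) ≤
      Real.log C / Real.log (n : ℝ) + (-1 + β) := by
    rw [div_le_iff₀ hl, add_mul, div_mul_cancel₀ _ hl.ne']
    exact h5
  rw [hε] at f1 f2
  linarith

theorem not_conj : ¬ (Filter.Tendsto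
      (fun n : ℕ =>
        Real.log (sSup {x : ℝ | ∃ f : ℂ → ℂ,
          DifferentiableOn ℂ f (Metric.ball (0 : ℂ) 1) ∧
          Set.InjOn f (Metric.ball (0 : ℂ) 1) ∧
          f 0 = 0 ∧
          (∀ z ∈ Metric.ball (0 : ℂ) 1, ‖f z‖ ≤ 1) ∧
          x = ‖iteratedDeriv n f 0‖ / (n.factorial : ℝ)}) / Real.log (n : ℝ))
      Filter.atTop (nhds (-3 / 4 : ℝ)) ∧
    Filter.Tendsto
      (fun n : ℕ =>
        Real.log (sSup {x : ℝ | ∃ h : ℂ → ℂ,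
          DifferentiableOn ℂ h (Metric.ball (0 : ℂ) 1) ∧
          h 0 = 0 ∧
          Set.InjOn (fun z : ℂ => z + h z⁻¹) {z : ℂ | 1 < ‖z‖} ∧
          x = ‖iteratedDeriv n h 0‖ / (n.factorial : ℝ)}) / Real.log (n : ℝ))
      Filter.atTop (nhds (-3 / 4 : ℝ))) := by
  obtain ⟨β, C, hβ0, hβ, hC, h1, -⟩ := coef
  rintro ⟨ht, -⟩
  refine A3_limit _ β C hβ0 hβ hC ?_ ?_ ht
  · rintro n x ⟨f, -, -, -, -, rfl⟩
    positivity
  · rintro n hn x ⟨f, hd, hi, h0, hb, rfl⟩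
    exact h1 f hd hi h0 hb n hn

end H13.EC
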