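import Pool.Agent.H62.CJ.P2

/-!
# Project EC (MP_ecfee9_an, Carleson-Jones conjecture, S06590): definitions

Paper proof: note 1487.  Notation: `0 < q < 1`, `p = 2 - q`, `kappa = κ > 0`, `R = q / κ`,
`m0 = 1/2 - κ/q`, `W = y^(κ-q) |F'|^(2-q)`, `A = AA F = y F''/F'`, `G = y^2 (F''/F')'`.
`pt`, `Cls`, `AA`, `PP`, `B1`, `B2`, `strip`, `HP` are those of `Pool.Agent.H62.CJ.Def`,
`P1L F = F''/F'` is in `Pool.Agent.H62.CJ.P1`.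

`uu F q κ δ w z = y^κ (|F z - w|^2 + δ^2)^(-q/2)` is the kernel, `ux`, `uy`, `uxy` its derivatives.
-/

set_option autoImplicit false

open Set Metric MeasureTheory

namespace H13.EC

open H62.CJ

/-- `E = |F z - w|^2 + δ^2` -/
noncomputable def EE (F : ℂ → ℂ) (δ : ℝ) (w z : ℂ) : ℝ := ‖F z - w‖ ^ 2 + δ ^ 2

/-- `P = Re (conj (F z - w) F' z)` -/
noncomputable def PR (F : ℂ → ℂ) (w z : ℂ) : ℝ := ((starRingEnd ℂ) (F z - w) * deriv F z).re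

/-- `Q1 = Im (conj (F z - w) F' z)` -/
noncomputable def QI (F : ℂ → ℂ) (w z : ℂ) : ℝ := ((starRingEnd ℂ) (F z - w) * deriv F z).im

/-- `S = Im (conj (F z - w) F'' z)` -/
noncomputable def SI (F : ℂ → ℂ) (w z : ℂ) : ℝ :=
  ((starRingEnd ℂ) (F z - w) * deriv (deriv F) z).im

/-- `Re (conj (F z - w) F'' z)` -/
noncomputable def SR (F : ℂ → ℂ) (w z : ℂ) : ℝ :=
  ((starRingEnd ℂ) (F z - w) * deriv (deriv F) z).re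

/-- the kernel -/
noncomputable def uu (F : ℂ → ℂ) (q κ δ : ℝ) (w z : ℂ) : ℝ := z.im ^ κ * EE F δ w z ^ (-(q / 2))

/-- `∂u/∂x` -/
noncomputable def ux (F : ℂ → ℂ) (q κ δ : ℝ) (w z : ℂ) : ℝ :=
  -(q * z.im ^ κ * EE F δ w z ^ (-(q / 2) - 1) * PR F w z)

/-- `∂u/∂y` -/
noncomputable def uy (F : ℂ → ℂ) (q κ δ : ℝ) (w z : ℂ) : ℝ :=
  z.im ^ (κ - 1) * EE F δ w z ^ (-(q / 2) - 1) * (κ * EE F δ w z + q * z.im * QI F w z)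

/-- `∂²u/∂x∂y` -/
noncomputable def uxy (F : ℂ → ℂ) (q κ δ : ℝ) (w z : ℂ) : ℝ :=
  -(q * z.im ^ κ * EE F δ w z ^ (-(q / 2) - 2) *
    (κ / z.im * EE F δ w z * PR F w z + (q + 2) * QI F w z * PR F w z - EE F δ w z * SI F w z))

/-- the integrand of the inner integral -/
noncomputable def jj (F : ℂ → ℂ) (q κ δ : ℝ) (w z : ℂ) : ℝ :=
  if ux F q κ δ w z < 0 ∧ uy F q κ δ w z < 0 then uxy F q κ δ w z else 0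

/-- the weight `W = y^(κ-q) |F'|^(2-q)` -/
noncomputable def WW (F : ℂ → ℂ) (q κ : ℝ) (z : ℂ) : ℝ := z.im ^ (κ - q) * ‖deriv F z‖ ^ (2 - q)

/-- the closed rectangle `[x0, x0 + 2 pi] x [y1, b]` -/
def RC (x0 y1 b : ℝ) : Set (ℝ × ℝ) := Icc x0 (x0 + 2 * Real.pi) ×ˢ Icc y1 b

/-- `m0 = 1/2 - κ/q` -/
noncomputable def mz (q κ : ℝ) : ℝ := 1 / 2 - κ / q

/-- `c = A - i m0` -/
noncomputable def cc (F : ℂ → ℂ) (q κ : ℝ) (z : ℂ) : ℂ := AA F z - ((mz q κ : ℝ) : ℂ) * Complex.I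

/-- `Q = |c|^2 - 1/4` -/
noncomputable def QQ (F : ℂ → ℂ) (q κ : ℝ) (z : ℂ) : ℝ := ‖cc F q κ z‖ ^ 2 - 1 / 4

/-- `G = y^2 (F''/F')'` -/
noncomputable def Gg (F : ℂ → ℂ) (z : ℂ) : ℂ := (z.im : ℂ) ^ 2 * deriv (P1L F) z

/-- the integral `int_{y1}^b y^(κ-q) P_p(y) dy`, `p = 2 - q` -/
noncomputable def I1 (F : ℂ → ℂ) (q κ y1 b : ℝ) : ℝ :=
  ∫ y in y1..b, y ^ (κ - q) * PP F (2 - q) y

/-- a family of disjoint balls `B(c k, ρ k)` and of discs `B(ω k, σ k)` in the `w` plane, such that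
for `w` in the disc the kernel has a peak of height at least `γ k` in the ball -/
structure IsFam (F : ℂ → ℂ) (q κ x0 y1 b : ℝ) {ι : Type} (s : Finset ι) (c : ι → ℂ) (ρ : ι → ℝ)
    (ω : ι → ℂ) (σ γ : ι → ℝ) (δ0 : ℝ) : Prop where
  δ0_pos : 0 < δ0
  re_mem : ∀ k ∈ s, (c k).re ∈ Icc x0 (x0 + 2 * Real.pi)
  im_mem : ∀ k ∈ s, (c k).im ∈ Icc y1 b
  ρ_pos : ∀ k ∈ s, 0 < ρ k
  ρ_le : ∀ k ∈ s, ρ k ≤ (c k).im / 2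
  σ_nonneg : ∀ k ∈ s, 0 ≤ σ k
  γ_nonneg : ∀ k ∈ s, 0 ≤ γ k
  disj : ∀ k ∈ s, ∀ l ∈ s, k ≠ l → ρ k + ρ l < ‖c k - c l‖
  ω_le : ∀ k ∈ s, ‖ω k - F (c k)‖ + σ k ≤ (q / κ + 1) * ((c k).im * ‖deriv F (c k)‖)
  gain : ∀ k ∈ s, ∀ w ∈ ball (ω k) (σ k), ∀ δ : ℝ, 0 < δ → δ ≤ δ0 → ∀ z : ℂ,
    ρ k / 2 ≤ ‖z - c k‖ → ‖z - c k‖ ≤ ρ k → uu F q κ δ w z + γ k ≤ uu F q κ δ w (c k)
  ne : ∀ k ∈ s, ∀ w ∈ ball (ω k) (σ k), ∀ z : ℂ, ‖z - c k‖ ≤ ρ k → F z ≠ w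

end H13.EC
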