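import Pool.Agent.H13.EC.Def
import Pool.Agent.H34.EC.K1

/-!
# EC-K1: the kernel `u_w`, its derivatives, negative Laplacian of its logarithm, null sets

PROOF.  `E = |F z - w|^2 + δ^2 > 0`.  Along `x`: `F_x = F'`, `E_x = 2 P`,
`P_x = |F'|^2 + SR`.  Along `y`: `F_y = i F'`, `E_y = - 2 Q1`,
`P_y = - S`, `(Q1)_y = - |F'|^2 + SR`.  `lxx + lyy = - κ/y^2 - 2 q |F'|^2/E + 2 q (P^2 + Q1^2)/E^2` and
`P^2 + Q1^2 = |F z - w|^2 |F'|^2 ≤ E |F'|^2`.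
Everything is read off from `Pool.Agent.H34.EC.K1`.
-/

set_option autoImplicit false

open Set Metric MeasureTheory

namespace H13.EC

open H62.CJ

open H92.EC H34.EC Filter Topology

/-- derivatives of `log u` -/
noncomputable def lx (F : ℂ → ℂ) (q δ : ℝ) (w z : ℂ) : ℝ := -(q * (PR F w z / EE F δ w z))

noncomputable def ly (F : ℂ → ℂ) (q κ δ : ℝ) (w z : ℂ) : ℝ :=
  κ / z.im + q * (QI F w z / EE F δ w z)

noncomputable def lxx (F : ℂ → ℂ) (q δ : ℝ) (w z : ℂ) : ℝ :=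
  -(q * ((‖deriv F z‖ ^ 2 + SR F w z) / EE F δ w z - 2 * PR F w z ^ 2 / EE F δ w z ^ 2))

noncomputable def lyy (F : ℂ → ℂ) (q κ δ : ℝ) (w z : ℂ) : ℝ :=
  -(κ / z.im ^ 2) +
    q * ((-‖deriv F z‖ ^ 2 + SR F w z) / EE F δ w z + 2 * QI F w z ^ 2 / EE F δ w z ^ 2)

theorem EE_pos (F : ℂ → ℂ) (δ : ℝ) (hδ : 0 < δ) (w z : ℂ) : 0 < EE F δ w z := by
  unfold EE; positivity

theorem uu_pos (F : ℂ → ℂ) (q κ δ : ℝ) (hδ : 0 < δ) (w z : ℂ) (hz : 0 < z.im) :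
    0 < uu F q κ δ w z := by
  unfold uu; exact mul_pos (Real.rpow_pos_of_pos hz _) (Real.rpow_pos_of_pos (EE_pos F δ hδ w z) _)

theorem K1_EE (F : ℂ → ℂ) (δ : ℝ) (w z : ℂ) : EE F δ w z = MW δ (F z) w := by
  unfold EE MW
  rw [norm_sub_rev]

theorem K1_PR (F : ℂ → ℂ) (w z : ℂ) :
    PR F w z = -((starRingEnd ℂ) (w - F z) * deriv F z).re := by
  unfold PR
  rw [← Complex.neg_re, ← neg_mul, ← map_neg, neg_sub]

theorem K1_SR (F : ℂ → ℂ) (w z : ℂ) :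
    SR F w z = -((starRingEnd ℂ) (w - F z) * deriv (deriv F) z).re := by
  unfold SR
  rw [← Complex.neg_re, ← neg_mul, ← map_neg, neg_sub]

theorem K1_QI (F : ℂ → ℂ) (w z : ℂ) :
    QI F w z = ((starRingEnd ℂ) (w - F z) * (Complex.I * deriv F z)).re := by
  unfold QI
  simp
  ring

theorem K1_SI (F : ℂ → ℂ) (w z : ℂ) :
    SI F w z = ((starRingEnd ℂ) (w - F z) * (Complex.I * deriv (deriv F) z)).re := by
  unfold SI
  simp
  ring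

theorem K1_uu (F : ℂ → ℂ) (q κ δ : ℝ) (w z : ℂ) :
    uu F q κ δ w z = UU q κ δ z.im (F z) w := by
  unfold uu UU
  rw [K1_EE]

theorem K1_ux (F : ℂ → ℂ) (q κ δ : ℝ) (w z : ℂ) :
    ux F q κ δ w z = UX q κ δ z.im (F z) (deriv F z) w := by
  unfold ux UX
  rw [K1_EE, K1_PR]
  ring

theorem K1_uy (F : ℂ → ℂ) (q κ δ : ℝ) (hδ : 0 < δ) (w z : ℂ) (hz : 0 < z.im) :
    uy F q κ δ w z = UY q κ δ z.im (F z) (deriv F z) w := by
  have hE := EE_pos F δ hδ w z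
  unfold uy UY
  rw [← K1_QI, ← K1_EE]
  have e1 : EE F δ w z ^ (-(q / 2)) = EE F δ w z ^ (-(q / 2) - 1) * EE F δ w z := by
    rw [← Real.rpow_add_one hE.ne']
    congr 1
    ring
  have e2 : z.im ^ κ = z.im ^ (κ - 1) * z.im := by
    rw [← Real.rpow_add_one hz.ne']
    congr 1
    ring
  rw [e1, e2]
  ring

theorem K1_uxy (F : ℂ → ℂ) (q κ δ : ℝ) (hδ : 0 < δ) (w z : ℂ) (hz : 0 < z.im) :
    uxy F q κ δ w z = UXY q κ δ z.im (F z) (deriv F z) (deriv (deriv F) z) w := by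
  have hE := EE_pos F δ hδ w z
  unfold uxy UXY
  rw [← K1_QI, ← K1_SI, ← K1_EE, K1_PR]
  have e1 : EE F δ w z ^ (-(q / 2) - 1) = EE F δ w z ^ (-(q / 2) - 2) * EE F δ w z := by
    rw [← Real.rpow_add_one hE.ne']
    congr 1
    ring
  have e2 : z.im ^ κ = z.im ^ (κ - 1) * z.im := by
    rw [← Real.rpow_add_one hz.ne']
    congr 1
    ring
  rw [e1, e2]
  field_simp
  ring

theorem K1_lx (F : ℂ → ℂ) (q δ : ℝ) (w z : ℂ) :
    lx F q δ w z = H34.EC.GX q δ (F z) (deriv F z) w := by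
  unfold lx H34.EC.GX
  rw [K1_EE, K1_PR]
  ring

theorem K1_ly (F : ℂ → ℂ) (q κ δ : ℝ) (w z : ℂ) :
    ly F q κ δ w z = GY q κ δ z.im (F z) (deriv F z) w := by
  unfold ly GY
  rw [K1_EE, K1_QI]
  ring

theorem K1_lxx (F : ℂ → ℂ) (q δ : ℝ) (w z : ℂ) :
    lxx F q δ w z = GXX q δ (F z) (deriv F z) (deriv (deriv F) z) w := by
  unfold lxx GXX
  rw [K1_EE, K1_PR, K1_SR]
  ring

theorem K1_lyy (F : ℂ → ℂ) (q κ δ : ℝ) (w z : ℂ) :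
    lyy F q κ δ w z = GYY q κ δ z.im (F z) (deriv F z) (deriv (deriv F) z) w := by
  unfold lyy GYY
  rw [K1_EE, K1_QI, K1_SR]
  ring

theorem K1_d1 (F : ℂ → ℂ) (M : ℝ) (hF : Cls F M) (x y : ℝ) (hy : 0 < y) :
    HasDerivAt F (deriv F ((x : ℂ) + (y : ℂ) * Complex.I)) ((x : ℂ) + (y : ℂ) * Complex.I) := by
  rw [← pt_eq]
  exact (hF.diff.differentiableAt (P2_open.mem_nhds hy)).hasDerivAt

theorem K1_d2 (F : ℂ → ℂ) (M : ℝ) (hF : Cls F M) (x y : ℝ) (hy : 0 < y) :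
    HasDerivAt (deriv F) (deriv (deriv F) ((x : ℂ) + (y : ℂ) * Complex.I))
      ((x : ℂ) + (y : ℂ) * Complex.I) := by
  rw [← pt_eq]
  exact ((P1_d1 F M hF).differentiableAt (P2_open.mem_nhds hy)).hasDerivAt

theorem uu_x (F : ℂ → ℂ) (M : ℝ) (hF : Cls F M) (q κ δ : ℝ) (hδ : 0 < δ) (w : ℂ) (x y : ℝ)
    (hy : 0 < y) : HasDerivAt (fun t => uu F q κ δ w (pt t y)) (ux F q κ δ w (pt x y)) x :=
  hd_of (hasDerivAt_UU_x (q := q) (kap := κ) hδ (K1_d1 F M hF x y hy) w)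
    (fun t => by rw [K1_uu, pt_im, pt_eq]) (by rw [K1_ux, pt_im, pt_eq])

theorem uu_y (F : ℂ → ℂ) (M : ℝ) (hF : Cls F M) (q κ δ : ℝ) (hδ : 0 < δ) (w : ℂ) (x y : ℝ)
    (hy : 0 < y) : HasDerivAt (fun t => uu F q κ δ w (pt x t)) (uy F q κ δ w (pt x y)) y :=
  hd_of (hasDerivAt_UU_y (q := q) (kap := κ) hδ hy (K1_d1 F M hF x y hy) w)
    (fun t => by rw [K1_uu, pt_im, pt_eq])
    (by rw [K1_uy F q κ δ hδ w (pt x y) hy, pt_im, pt_eq])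

theorem ux_y (F : ℂ → ℂ) (M : ℝ) (hF : Cls F M) (q κ δ : ℝ) (hδ : 0 < δ) (w : ℂ) (x y : ℝ)
    (hy : 0 < y) : HasDerivAt (fun t => ux F q κ δ w (pt x t)) (uxy F q κ δ w (pt x y)) y :=
  hd_of (hasDerivAt_UX_y (q := q) (kap := κ) hδ hy (K1_d1 F M hF x y hy) (K1_d2 F M hF x y hy) w)
    (fun t => by rw [K1_ux, pt_im, pt_eq])
    (by rw [K1_uxy F q κ δ hδ w (pt x y) hy, pt_im, pt_eq])

/-- the other form of the mixed derivative -/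
theorem uy_x (F : ℂ → ℂ) (M : ℝ) (hF : Cls F M) (q κ δ : ℝ) (hδ : 0 < δ) (w : ℂ) (x y : ℝ)
    (hy : 0 < y) : HasDerivAt (fun t => uy F q κ δ w (pt t y)) (uxy F q κ δ w (pt x y)) x :=
  hd_of (hasDerivAt_UY_x (q := q) (kap := κ) hδ (K1_d1 F M hF x y hy) (K1_d2 F M hF x y hy) w)
    (fun t => by rw [K1_uy F q κ δ hδ w (pt t y) hy, pt_im, pt_eq])
    (by rw [K1_uxy F q κ δ hδ w (pt x y) hy, pt_im, pt_eq])

theorem log_x (F : ℂ → ℂ) (M : ℝ) (hF : Cls F M) (q κ δ : ℝ) (hδ : 0 < δ) (w : ℂ) (x y : ℝ)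
    (hy : 0 < y) :
    HasDerivAt (fun t => Real.log (uu F q κ δ w (pt t y))) (lx F q δ w (pt x y)) x :=
  hd_of (hasDerivAt_GG_x (q := q) (kap := κ) hδ (K1_d1 F M hF x y hy) w)
    (fun t => by rw [K1_uu, pt_im, pt_eq, log_UU hδ hy]) (by rw [K1_lx, pt_eq])

theorem log_y (F : ℂ → ℂ) (M : ℝ) (hF : Cls F M) (q κ δ : ℝ) (hδ : 0 < δ) (w : ℂ) (x y : ℝ)
    (hy : 0 < y) :
    HasDerivAt (fun t => Real.log (uu F q κ δ w (pt x t))) (ly F q κ δ w (pt x y)) y := by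
  have h1 := hasDerivAt_GG_y (q := q) (kap := κ) hδ hy (K1_d1 F M hF x y hy) w
  rw [K1_ly, pt_im, pt_eq]
  refine h1.congr_of_eventuallyEq ?_
  filter_upwards [Ioi_mem_nhds hy] with t ht
  rw [K1_uu, pt_im, pt_eq, log_UU hδ ht]

theorem log_xx (F : ℂ → ℂ) (M : ℝ) (hF : Cls F M) (q δ : ℝ) (hδ : 0 < δ) (w : ℂ) (x y : ℝ)
    (hy : 0 < y) : HasDerivAt (fun t => lx F q δ w (pt t y)) (lxx F q δ w (pt x y)) x :=
  hd_of (hasDerivAt_GX_x (q := q) hδ (K1_d1 F M hF x y hy) (K1_d2 F M hF x y hy) w)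
    (fun t => by rw [K1_lx, pt_eq]) (by rw [K1_lxx, pt_eq])

theorem log_yy (F : ℂ → ℂ) (M : ℝ) (hF : Cls F M) (q κ δ : ℝ) (hδ : 0 < δ) (w : ℂ) (x y : ℝ)
    (hy : 0 < y) : HasDerivAt (fun t => ly F q κ δ w (pt x t)) (lyy F q κ δ w (pt x y)) y :=
  hd_of (hasDerivAt_GY_y (q := q) (kap := κ) hδ hy (K1_d1 F M hF x y hy) (K1_d2 F M hF x y hy) w)
    (fun t => by rw [K1_ly, pt_im, pt_eq]) (by rw [K1_lyy, pt_im, pt_eq])

theorem lap_neg (F : ℂ → ℂ) (q κ δ : ℝ) (hq : 0 < q) (hκ : 0 < κ) (hδ : 0 < δ) (w z : ℂ)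
    (hz : 0 < z.im) : lxx F q δ w z + lyy F q κ δ w z < 0 := by
  rw [K1_lxx, K1_lyy]
  exact GXX_add_GYY_neg hq.le hκ hδ hz _ _ _ _

theorem K1_c0 (F : ℂ → ℂ) (M : ℝ) (hF : Cls F M) :
    ContinuousOn (fun p : ℂ × ℂ => F p.2) ((univ : Set ℂ) ×ˢ HP) :=
  hF.diff.continuousOn.comp continuousOn_snd (fun _ hp => hp.2)

theorem K1_c1 (F : ℂ → ℂ) (M : ℝ) (hF : Cls F M) :
    ContinuousOn (fun p : ℂ × ℂ => deriv F p.2) ((univ : Set ℂ) ×ˢ HP) :=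
  (P1_d1 F M hF).continuousOn.comp continuousOn_snd (fun _ hp => hp.2)

theorem K1_c2 (F : ℂ → ℂ) (M : ℝ) (hF : Cls F M) :
    ContinuousOn (fun p : ℂ × ℂ => deriv (deriv F) p.2) ((univ : Set ℂ) ×ˢ HP) :=
  (P1_d2 F M hF).continuousOn.comp continuousOn_snd (fun _ hp => hp.2)

theorem K1_cy : ContinuousOn (fun p : ℂ × ℂ => p.2.im) ((univ : Set ℂ) ×ˢ HP) :=
  (Complex.continuous_im.comp continuous_snd).continuousOn

theorem cont_uu (F : ℂ → ℂ) (M : ℝ) (hF : Cls F M) (q κ δ : ℝ) (hδ : 0 < δ) :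
    ContinuousOn (fun p : ℂ × ℂ => uu F q κ δ p.1 p.2) (univ ×ˢ HP) :=
  (continuousOn_UU (q := q) (kap := κ) hδ (fun _ hp => hp.2) K1_cy (K1_c0 F M hF)
    continuousOn_fst).congr (fun _ _ => K1_uu F q κ δ _ _)

theorem cont_ux (F : ℂ → ℂ) (M : ℝ) (hF : Cls F M) (q κ δ : ℝ) (hδ : 0 < δ) :
    ContinuousOn (fun p : ℂ × ℂ => ux F q κ δ p.1 p.2) (univ ×ˢ HP) :=
  (continuousOn_UX (q := q) (kap := κ) hδ (fun _ hp => hp.2) K1_cy (K1_c0 F M hF)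
    (K1_c1 F M hF) continuousOn_fst).congr (fun _ _ => K1_ux F q κ δ _ _)

theorem cont_uy (F : ℂ → ℂ) (M : ℝ) (hF : Cls F M) (q κ δ : ℝ) (hδ : 0 < δ) :
    ContinuousOn (fun p : ℂ × ℂ => uy F q κ δ p.1 p.2) (univ ×ˢ HP) :=
  (continuousOn_UY (q := q) (kap := κ) hδ (fun _ hp => hp.2) K1_cy (K1_c0 F M hF)
    (K1_c1 F M hF) continuousOn_fst).congr (fun _ hp => K1_uy F q κ δ hδ _ _ hp.2)

theorem cont_uxy (F : ℂ → ℂ) (M : ℝ) (hF : Cls F M) (q κ δ : ℝ) (hδ : 0 < δ) :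
    ContinuousOn (fun p : ℂ × ℂ => uxy F q κ δ p.1 p.2) (univ ×ˢ HP) :=
  (continuousOn_UXY (q := q) (kap := κ) hδ (fun _ hp => hp.2) K1_cy (K1_c0 F M hF)
    (K1_c1 F M hF) (K1_c2 F M hF) continuousOn_fst).congr
    (fun _ hp => K1_uxy F q κ δ hδ _ _ hp.2)

theorem cont_lxx (F : ℂ → ℂ) (M : ℝ) (hF : Cls F M) (q δ : ℝ) (hδ : 0 < δ) :
    ContinuousOn (fun p : ℂ × ℂ => lxx F q δ p.1 p.2) (univ ×ˢ HP) :=
  (continuousOn_GXX (q := q) hδ (K1_c0 F M hF) (K1_c1 F M hF) (K1_c2 F M hF)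
    continuousOn_fst).congr (fun _ _ => K1_lxx F q δ _ _)

theorem cont_lyy (F : ℂ → ℂ) (M : ℝ) (hF : Cls F M) (q κ δ : ℝ) (hδ : 0 < δ) :
    ContinuousOn (fun p : ℂ × ℂ => lyy F q κ δ p.1 p.2) (univ ×ˢ HP) :=
  (continuousOn_GYY (q := q) (kap := κ) hδ (fun _ hp => hp.2) K1_cy (K1_c0 F M hF)
    (K1_c1 F M hF) (K1_c2 F M hF) continuousOn_fst).congr (fun _ _ => K1_lyy F q κ δ _ _)

theorem K1_mEE (F : ℂ → ℂ) (hF : Measurable F) (δ : ℝ) :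
    Measurable (fun p : ℂ × ℂ => EE F δ p.1 p.2) := by
  unfold EE
  fun_prop

theorem K1_mPR (F : ℂ → ℂ) (hF : Measurable F) :
    Measurable (fun p : ℂ × ℂ => PR F p.1 p.2) := by
  have h1 : Measurable (deriv F) := measurable_deriv F
  unfold PR
  fun_prop

theorem K1_mQI (F : ℂ → ℂ) (hF : Measurable F) :
    Measurable (fun p : ℂ × ℂ => QI F p.1 p.2) := by
  have h1 : Measurable (deriv F) := measurable_deriv F
  unfold QI
  fun_prop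

theorem K1_mSI (F : ℂ → ℂ) (hF : Measurable F) :
    Measurable (fun p : ℂ × ℂ => SI F p.1 p.2) := by
  have h1 : Measurable (deriv (deriv F)) := measurable_deriv (deriv F)
  unfold SI
  fun_prop

theorem meas_uu (F : ℂ → ℂ) (hF : Measurable F) (q κ δ : ℝ) :
    Measurable (fun p : ℂ × ℂ => uu F q κ δ p.1 p.2) := by
  have h1 := K1_mEE F hF δ
  unfold uu
  fun_prop

theorem meas_ux (F : ℂ → ℂ) (hF : Measurable F) (q κ δ : ℝ) :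
    Measurable (fun p : ℂ × ℂ => ux F q κ δ p.1 p.2) := by
  have h1 := K1_mEE F hF δ
  have h2 := K1_mPR F hF
  unfold ux
  fun_prop

theorem meas_uy (F : ℂ → ℂ) (hF : Measurable F) (q κ δ : ℝ) :
    Measurable (fun p : ℂ × ℂ => uy F q κ δ p.1 p.2) := by
  have h1 := K1_mEE F hF δ
  have h2 := K1_mQI F hF
  unfold uy
  fun_prop

theorem meas_uxy (F : ℂ → ℂ) (hF : Measurable F) (q κ δ : ℝ) :
    Measurable (fun p : ℂ × ℂ => uxy F q κ δ p.1 p.2) := by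
  have h1 := K1_mEE F hF δ
  have h2 := K1_mQI F hF
  have h3 := K1_mPR F hF
  have h4 := K1_mSI F hF
  unfold uxy
  fun_prop

theorem meas_jj (F : ℂ → ℂ) (hF : Measurable F) (q κ δ : ℝ) :
    Measurable (fun p : ℂ × ℂ => jj F q κ δ p.1 p.2) := by
  unfold jj
  refine Measurable.ite ?_ (meas_uxy F hF q κ δ) measurable_const
  exact (measurableSet_lt (meas_ux F hF q κ δ) measurable_const).inter
    (measurableSet_lt (meas_uy F hF q κ δ) measurable_const)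

end H13.EC
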