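import Pool.Agent.H13.EC.Def
import Pool.Agent.H92.EC.Xw

/-!
# EC-K3: the inner integral over `w` (note 1487, Step 3)

`c1 = q R^(1-q)/((1-q)(2-q))`, `R = q/κ`.  For fixed `z`, with `V = y |F' z|`, `d = δ/V`, substitute
`w = F z - i y F'(z) τ`, `τ = a - i v`: `{ux < 0, uy < 0} = {v > 0, m < R a}`, `m = a^2 + v^2 + d^2`, and
`int jj dA(w) = q y^(κ-q) |F'|^(2-q) (X0(d) + (Im A) X1(d) - (Re A) X2(d))` (helper92,
`Pool.Agent.H92.EC.X`, `Xw`), `q X0(d) = d^(-q) - R^(-q)/(1-q) + o(1)`, `q X1 → c1`, `X2 → const`.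
The statement below is what K6 needs.
-/

set_option autoImplicit false

open Set Metric MeasureTheory Filter Topology

namespace H13.EC

open H62.CJ

/-- `c1 = q R^(1-q)/((1-q)(2-q))` -/
noncomputable def c1 (q κ : ℝ) : ℝ := q * (q / κ) ^ (1 - q) / ((1 - q) * (2 - q))

theorem K3_EE (F : ℂ → ℂ) (δ : ℝ) (w z : ℂ) : EE F δ w z = H92.EC.MW δ (F z) w := by
  unfold EE H92.EC.MW
  rw [norm_sub_rev]

theorem K3_EE_pos (F : ℂ → ℂ) (δ : ℝ) (hδ : 0 < δ) (w z : ℂ) : 0 < EE F δ w z := by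
  unfold EE; positivity

theorem K3_PR (F : ℂ → ℂ) (w z : ℂ) :
    PR F w z = -((starRingEnd ℂ) (w - F z) * deriv F z).re := by
  unfold PR
  rw [← Complex.neg_re, ← neg_mul, ← map_neg, neg_sub]

theorem K3_QI (F : ℂ → ℂ) (w z : ℂ) :
    QI F w z = ((starRingEnd ℂ) (w - F z) * (Complex.I * deriv F z)).re := by
  unfold QI
  simp
  ring

theorem K3_SI (F : ℂ → ℂ) (w z : ℂ) :
    SI F w z = ((starRingEnd ℂ) (w - F z) * (Complex.I * deriv (deriv F) z)).re := by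
  unfold SI
  simp
  ring

theorem K3_ux (F : ℂ → ℂ) (q κ δ : ℝ) (w z : ℂ) :
    ux F q κ δ w z = H92.EC.UX q κ δ z.im (F z) (deriv F z) w := by
  unfold ux H92.EC.UX
  rw [K3_EE, K3_PR]
  ring

theorem K3_uy (F : ℂ → ℂ) (q κ δ : ℝ) (hδ : 0 < δ) (w z : ℂ) (hz : 0 < z.im) :
    uy F q κ δ w z = H92.EC.UY q κ δ z.im (F z) (deriv F z) w := by
  have hE := K3_EE_pos F δ hδ w z
  unfold uy H92.EC.UY
  rw [← K3_QI, ← K3_EE]
  have e1 : EE F δ w z ^ (-(q / 2)) = EE F δ w z ^ (-(q / 2) - 1) * EE F δ w z := by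
    rw [← Real.rpow_add_one hE.ne']
    congr 1
    ring
  have e2 : z.im ^ κ = z.im ^ (κ - 1) * z.im := by
    rw [← Real.rpow_add_one hz.ne']
    congr 1
    ring
  rw [e1, e2]
  ring

theorem K3_uxy (F : ℂ → ℂ) (q κ δ : ℝ) (hδ : 0 < δ) (w z : ℂ) (hz : 0 < z.im) :
    uxy F q κ δ w z =
      H92.EC.UXY q κ δ z.im (F z) (deriv F z) (deriv (deriv F) z) w := by
  have hE := K3_EE_pos F δ hδ w z
  unfold uxy H92.EC.UXY
  rw [← K3_QI, ← K3_SI, ← K3_EE, K3_PR]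
  have e1 : EE F δ w z ^ (-(q / 2) - 1) = EE F δ w z ^ (-(q / 2) - 2) * EE F δ w z := by
    rw [← Real.rpow_add_one hE.ne']
    congr 1
    ring
  have e2 : z.im ^ κ = z.im ^ (κ - 1) * z.im := by
    rw [← Real.rpow_add_one hz.ne']
    congr 1
    ring
  rw [e1, e2]
  field_simp
  ring

theorem K3_jj (F : ℂ → ℂ) (q κ δ : ℝ) (hδ : 0 < δ) (z : ℂ) (hz : 0 < z.im) :
    (fun w => jj F q κ δ w z) =
      {w : ℂ | H92.EC.UX q κ δ z.im (F z) (deriv F z) w < 0 ∧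
        H92.EC.UY q κ δ z.im (F z) (deriv F z) w < 0}.indicator
        (H92.EC.UXY q κ δ z.im (F z) (deriv F z) (deriv (deriv F) z)) := by
  classical
  ext w
  unfold jj
  rw [K3_ux, K3_uy F q κ δ hδ w z hz, K3_uxy F q κ δ hδ w z hz]
  rw [indicator_apply]
  rfl

theorem jj_support (F : ℂ → ℂ) (q κ δ : ℝ) (hq : 0 < q) (hκ : 0 < κ) (hδ : 0 < δ) (w z : ℂ)
    (hz : 0 < z.im) (h : jj F q κ δ w z ≠ 0) :
    ‖w - F z‖ ≤ q / κ * (z.im * ‖deriv F z‖) := by
  have h1 : ux F q κ δ w z < 0 ∧ uy F q κ δ w z < 0 := by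
    by_contra hc
    exact h (if_neg hc)
  have hE := K3_EE_pos F δ hδ w z
  have h2 := h1.2
  unfold uy at h2
  have h3 : κ * EE F δ w z + q * z.im * QI F w z < 0 := by
    by_contra hc
    push Not at hc
    have : 0 ≤ z.im ^ (κ - 1) * EE F δ w z ^ (-(q / 2) - 1) *
        (κ * EE F δ w z + q * z.im * QI F w z) := by positivity
    linarith
  have h4 : |QI F w z| ≤ ‖w - F z‖ * ‖deriv F z‖ := by
    unfold QI
    refine (Complex.abs_im_le_norm _).trans ?_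
    rw [norm_mul, RCLike.norm_conj, norm_sub_rev]
  have h5 : -QI F w z ≤ ‖w - F z‖ * ‖deriv F z‖ := (neg_le_abs _).trans h4
  have h6 : ‖w - F z‖ ^ 2 ≤ EE F δ w z := by
    unfold EE
    rw [norm_sub_rev]
    nlinarith [sq_nonneg δ]
  have h7 : κ * ‖w - F z‖ ^ 2 ≤ q * z.im * (‖w - F z‖ * ‖deriv F z‖) := by
    have a1 : κ * ‖w - F z‖ ^ 2 ≤ κ * EE F δ w z := by gcongr
    have a2 : q * z.im * (-QI F w z) ≤ q * z.im * (‖w - F z‖ * ‖deriv F z‖) := by gcongr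
    linarith
  by_cases hw : ‖w - F z‖ = 0
  · rw [hw]
    positivity
  · have hw0 : 0 < ‖w - F z‖ := lt_of_le_of_ne (norm_nonneg _) (Ne.symm hw)
    rw [div_mul_eq_mul_div, le_div_iff₀ hκ]
    have h8 : κ * ‖w - F z‖ * ‖w - F z‖ ≤ q * (z.im * ‖deriv F z‖) * ‖w - F z‖ := by
      nlinarith
    have h9 := le_of_mul_le_mul_right h8 hw0
    linarith

theorem jj_integrable (F : ℂ → ℂ) (q κ δ : ℝ) (hq : 0 < q) (hq1 : q < 1) (hκ : 0 < κ)
    (hδ : 0 < δ) (z : ℂ) (hz : 0 < z.im) (hne : deriv F z ≠ 0) :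
    Integrable (fun w : ℂ => jj F q κ δ w z) := by
  have hM : ∀ w : ℂ, 0 < H92.EC.MW δ (F z) w := fun w => by unfold H92.EC.MW; positivity
  have hcont : Continuous (fun w : ℂ => H92.EC.MW δ (F z) w) := by unfold H92.EC.MW; fun_prop
  have a1 := hcont.rpow_const (p := -(q / 2) - 1) (fun w => Or.inl (hM w).ne')
  have a2 := hcont.rpow_const (p := -(q / 2)) (fun w => Or.inl (hM w).ne')
  have a3 := hcont.rpow_const (p := -(q / 2) - 2) (fun w => Or.inl (hM w).ne')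
  have hc1 : Continuous (H92.EC.UX q κ δ z.im (F z) (deriv F z)) := by
    unfold H92.EC.UX
    fun_prop
  have hc2 : Continuous (H92.EC.UY q κ δ z.im (F z) (deriv F z)) := by
    unfold H92.EC.UY
    fun_prop
  have hc3 : Continuous (H92.EC.UXY q κ δ z.im (F z) (deriv F z) (deriv (deriv F) z)) := by
    unfold H92.EC.UXY
    fun_prop
  set S := {w : ℂ | H92.EC.UX q κ δ z.im (F z) (deriv F z) w < 0 ∧
        H92.EC.UY q κ δ z.im (F z) (deriv F z) w < 0} with hSd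
  have hS : MeasurableSet S :=
    ((isOpen_lt hc1 continuous_const).inter (isOpen_lt hc2 continuous_const)).measurableSet
  rw [K3_jj F q κ δ hδ z hz]
  have h1 : IntegrableOn (H92.EC.UXY q κ δ z.im (F z) (deriv F z) (deriv (deriv F) z))
      (closedBall (F z) (q / κ * (z.im * ‖deriv F z‖))) :=
    hc3.continuousOn.integrableOn_compact (isCompact_closedBall _ _)
  have h2 : S.indicator (H92.EC.UXY q κ δ z.im (F z) (deriv F z) (deriv (deriv F) z)) =
      (closedBall (F z) (q / κ * (z.im * ‖deriv F z‖))).indicator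
        (S.indicator (H92.EC.UXY q κ δ z.im (F z) (deriv F z) (deriv (deriv F) z))) := by
    symm
    rw [indicator_eq_self]
    intro w hw
    rw [mem_closedBall, dist_eq_norm]
    have := congrFun (K3_jj F q κ δ hδ z hz) w
    rw [Function.mem_support, ← this] at hw
    exact jj_support F q κ δ hq hκ hδ w z hz hw
  rw [h2, integrable_indicator_iff isClosed_closedBall.measurableSet]
  exact h1.indicator hS

theorem K3_arith (q ε X0 X1 X2 P L0 L1 Y2 k a N : ℝ) (hq : 0 < q) (hq1 : q < 1) (hε : 0 < ε)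
    (hk : |k| ≤ N) (hr : |a| ≤ N) (hN : 0 ≤ N) (b0 : |X0 - P - -L0| < ε / 2)
    (b1 : |X1 - L1| ≤ ε / 2) (b2 : |X2 - Y2| ≤ ε / 2) :
    q * (X0 + k * X1 - a * X2) ≤ q * P - (q * L0 - q * L1 * k + q * Y2 * a) + ε * (1 + N) := by
  have k0 : X0 - P + L0 ≤ ε / 2 := by
    have := (abs_lt.mp b0).2
    linarith
  have k1 : k * (X1 - L1) ≤ N * (ε / 2) := by
    refine (le_abs_self _).trans ?_
    rw [abs_mul]
    exact mul_le_mul hk b1 (abs_nonneg _) hN
  have k2 : -(a * (X2 - Y2)) ≤ N * (ε / 2) := by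
    refine (neg_le_abs _).trans ?_
    rw [abs_mul]
    exact mul_le_mul hr b2 (abs_nonneg _) hN
  have s0 : X0 + k * X1 - a * X2 ≤ P - L0 + L1 * k - Y2 * a +
      (ε / 2 + N * (ε / 2) + N * (ε / 2)) := by
    linarith
  have s1 : q * (ε / 2 + N * (ε / 2) + N * (ε / 2)) ≤ 1 * (ε * (1 + N)) := by
    have h1 : ε / 2 + N * (ε / 2) + N * (ε / 2) ≤ ε * (1 + N) := by
      have : 0 ≤ N * ε := by positivity
      linarith
    exact mul_le_mul hq1.le h1 (by positivity) zero_le_one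
  have s2 := mul_le_mul_of_nonneg_left s0 hq.le
  linarith

/-- the inner integral, up to an error which tends to zero with `δ/V` -/
theorem jj_integral (q κ : ℝ) (hq : 0 < q) (hq1 : q < 1) (hκ : 0 < κ) :
    ∃ c2 : ℝ, ∀ ε : ℝ, 0 < ε → ∃ d0 : ℝ, 0 < d0 ∧ ∀ (F : ℂ → ℂ) (z : ℂ) (δ : ℝ), 0 < z.im →
      deriv F z ≠ 0 → 0 < δ → δ < d0 * (z.im * ‖deriv F z‖) →
      ∫ w : ℂ, jj F q κ δ w z ≤
        δ ^ (-q) * (z.im ^ κ * ‖deriv F z‖ ^ 2) -
        WW F q κ z * ((q / κ) ^ (-q) / (1 - q) - c1 q κ * (AA F z).im + c2 * (AA F z).re) +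
        WW F q κ z * (ε * (1 + ‖AA F z‖)) := by
  have hR : 0 < q / κ := by positivity
  refine ⟨q * H92.EC.X2 q (q / κ) 0, fun ε hε => ?_⟩
  have t0 := (H92.EC.tendsto_X0 hq hq1 hR).eventually (Metric.ball_mem_nhds _ (half_pos hε))
  have t1 := (H92.EC.tendsto_X1 hq hq1 hR).eventually (Metric.ball_mem_nhds _ (half_pos hε))
  have t2 := (H92.EC.tendsto_X2 hq hq1 hR).eventually (Metric.ball_mem_nhds _ (half_pos hε))
  obtain ⟨d0, hd0, hsub⟩ := (mem_nhdsGT_iff_exists_Ioo_subset (α := ℝ)).mp (t0.and (t1.and t2))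
  refine ⟨d0, hd0, fun F z δ hz hne hδ hlt => ?_⟩
  have hn : 0 < ‖deriv F z‖ := norm_pos_iff.mpr hne
  set V := z.im * ‖deriv F z‖ with hV
  have hV0 : 0 < V := by positivity
  have hd : 0 < δ / V := by positivity
  have hd1 : δ / V < d0 := by
    rw [div_lt_iff₀ hV0]
    exact hlt
  have hm := hsub ⟨hd, hd1⟩
  simp only [mem_ofPred_eq, Real.dist_eq] at hm
  obtain ⟨b0, b1, b2⟩ := hm
  rw [K3_jj F q κ δ hδ z hz]
  have hM : ∀ w : ℂ, 0 < H92.EC.MW δ (F z) w := fun w => by unfold H92.EC.MW; positivity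
  have hcont : Continuous (fun w : ℂ => H92.EC.MW δ (F z) w) := by unfold H92.EC.MW; fun_prop
  have a1 := hcont.rpow_const (p := -(q / 2) - 1) (fun w => Or.inl (hM w).ne')
  have a2 := hcont.rpow_const (p := -(q / 2)) (fun w => Or.inl (hM w).ne')
  have hc1 : Continuous (H92.EC.UX q κ δ z.im (F z) (deriv F z)) := by
    unfold H92.EC.UX
    fun_prop
  have hc2 : Continuous (H92.EC.UY q κ δ z.im (F z) (deriv F z)) := by
    unfold H92.EC.UY
    fun_prop
  have hS : MeasurableSet {w : ℂ | H92.EC.UX q κ δ z.im (F z) (deriv F z) w < 0 ∧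
        H92.EC.UY q κ δ z.im (F z) (deriv F z) w < 0} :=
    ((isOpen_lt hc1 continuous_const).inter (isOpen_lt hc2 continuous_const)).measurableSet
  rw [integral_indicator hS, H92.EC.integral_UXY hq hκ hz hδ hne, ← hV]
  set X0 := H92.EC.X0 q (q / κ) (δ / V) with hX0
  set X1 := H92.EC.X1 q (q / κ) (δ / V) with hX1
  set X2 := H92.EC.X2 q (q / κ) (δ / V) with hX2
  set Y2 := H92.EC.X2 q (q / κ) 0 with hY2
  set L0 := (q / κ) ^ (-q) / (q * (1 - q)) with hL0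
  set L1 := (q / κ) ^ (1 - q) / ((1 - q) * (2 - q)) with hL1
  have hA : (z.im : ℂ) * deriv (deriv F) z / deriv F z = AA F z := rfl
  rw [hA]
  set A := AA F z with hAd
  have hW : 0 ≤ WW F q κ z := by
    unfold WW
    positivity
  have e1 : δ ^ (-q) * (z.im ^ κ * ‖deriv F z‖ ^ 2) = WW F q κ z * (q * ((δ / V) ^ (-q) / q)) := by
    have s1 : (δ / V) ^ (-q) = δ ^ (-q) * (z.im ^ q * ‖deriv F z‖ ^ q) := by
      rw [Real.div_rpow hδ.le hV0.le, Real.rpow_neg hV0.le, div_inv_eq_mul, hV,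
        Real.mul_rpow hz.le hn.le]
    have s2 : z.im ^ κ = z.im ^ (κ - q) * z.im ^ q := by
      rw [← Real.rpow_add hz]
      congr 1
      ring
    have s3 : ‖deriv F z‖ ^ 2 = ‖deriv F z‖ ^ (2 - q) * ‖deriv F z‖ ^ q := by
      rw [← Real.rpow_add hn, ← Real.rpow_natCast]
      congr 1
      push_cast
      ring
    unfold WW
    rw [s1, s2, s3]
    field_simp
  have e2 : q * z.im ^ (κ - q) * ‖deriv F z‖ ^ (2 - q) = q * WW F q κ z := by
    unfold WW
    ring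
  have e3 : (q / κ) ^ (-q) / (1 - q) = q * L0 := by
    rw [hL0]
    have : 1 - q ≠ 0 := by linarith
    field_simp
  have e4 : c1 q κ = q * L1 := by
    rw [hL1]
    unfold c1
    ring
  rw [e1, e2, e3, e4]
  have hk : |A.im| ≤ ‖A‖ := Complex.abs_im_le_norm A
  have hr : |A.re| ≤ ‖A‖ := Complex.abs_re_le_norm A
  have key := K3_arith q ε X0 X1 X2 ((δ / V) ^ (-q) / q) L0 L1 Y2 A.im A.re ‖A‖ hq hq1 hε hk hr
    (norm_nonneg _) b0 b1.le b2.le
  have := mul_le_mul_of_nonneg_left key hW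
  linarith

end H13.EC
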