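import Pool.Agent.H34.EC.K4s
import Pool.Agent.H36.EC.K4p

/-!
# EC-K4: side, top and corner terms integrated over `w` (note 1487, Step 4)

PROOF.  Side: `(uy)^- ≤ y^(κ-1) E^(-q/2-1) q y (Q1)^-` and it is nonzero only if `κ E < q y |Q1|`, so
`|F - w|^2 ≤ E < (q/κ) y |F - w| |F'|`, `|F - w| < R V`; and `E^(-q/2-1) |Q1| ≤ |F-w|^(-q-2) |F-w| |F'|`.
So the integral over all `w` is `≤ q y^κ |F'| int_{|v| < R V} |v|^(-q-1) dA = q y^κ |F'| 2 pi (R V)^(1-q)/(1-q)`.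
Top: `|ux| ≤ q y^κ |F'| |F - w|^(-q-1)`, on `closedBall 0 r`, `|F z| ≤ r`, the integral of `|F - w|^(-q-1)` is at
most that over `|v| ≤ 2 r`, `= 2 pi (2 r)^(1-q)/(1-q)`.  Corner: `u ≤ y^κ |F - w|^(-q)`.
`side_bound` is in `Pool.Agent.H34.EC.K4s`.
-/

set_option autoImplicit false

open Set Metric MeasureTheory

namespace H13.EC

open H62.CJ

theorem top_bound (F : ℂ → ℂ) (q κ δ : ℝ) (hq : 0 < q) (hq1 : q < 1) (hδ : 0 < δ)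
    (z : ℂ) (hz : 0 < z.im) (r : ℝ) (hr : ‖F z‖ ≤ r) :
    ∫ w in closedBall (0 : ℂ) r, max 0 (-ux F q κ δ w z) ≤
      q * z.im ^ κ * ‖deriv F z‖ * (2 * Real.pi * (2 * r) ^ (1 - q) / (1 - q)) := by
  exact H36.EC.top_bound F q κ δ hq hq1 hδ z hz r hr

theorem corner_bound (F : ℂ → ℂ) (q κ δ : ℝ) (hq : 0 < q) (hq1 : q < 1) (hδ : 0 < δ)
    (z : ℂ) (hz : 0 < z.im) (r : ℝ) (hr : ‖F z‖ ≤ r) :
    ∫ w in closedBall (0 : ℂ) r, uu F q κ δ w z ≤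
      z.im ^ κ * (2 * Real.pi * (2 * r) ^ (2 - q) / (2 - q)) := by
  exact H36.EC.corner_bound F q κ δ hq hq1 hδ z hz r hr

end H13.EC
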