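import Pool.Agent.H13.EC.Def

/-!
# EC-K5: the births (note 1487, Step 2)

`s = {z : x0 ≤ Re z < x0 + 2 pi, y1 ≤ Im z ≤ b}`; `F` is injective on `s`; `hgt F s w` is the height of
the preimage in `s` of `w`.  `int_{F(s)} hgt^κ = int_s y^κ |F'|^2` (change of variables,
`integral_image_eq_integral_abs_det_fderiv_smul`; the determinant is `|F'|^2`, see `k1_det`, `k1_area` in
`Pool.Agent.H62.CJ.K1`), and `s` and `RC` differ by a null set.
-/

set_option autoImplicit false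

open Set Metric MeasureTheory

namespace H13.EC

open H62.CJ

/-- the half open rectangle in `ℂ` -/
def HO (x0 y1 b : ℝ) : Set ℂ := {z : ℂ | z.re ∈ Ico x0 (x0 + 2 * Real.pi) ∧ z.im ∈ Icc y1 b}

/-- the height of the preimage in `s` -/
noncomputable def hgt (F : ℂ → ℂ) (s : Set ℂ) (w : ℂ) : ℝ := (Function.invFunOn F s w).im

theorem K5_open : IsOpen HP := isOpen_lt continuous_const Complex.continuous_im

theorem K5_det (c : ℂ) :
    ((ContinuousLinearMap.toSpanSingleton ℂ c).restrictScalars ℝ : ℂ →L[ℝ] ℂ).det = ‖c‖ ^ 2 := by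
  have h1 : (((ContinuousLinearMap.toSpanSingleton ℂ c).restrictScalars ℝ : ℂ →L[ℝ] ℂ) :
      ℂ →ₗ[ℝ] ℂ) = Algebra.lmul ℝ ℂ c := by
    ext x
    simp [mul_comm]
  rw [ContinuousLinearMap.det, h1, ← Algebra.norm_apply, Algebra.norm_complex_apply,
    Complex.normSq_eq_norm_sq]

theorem K5_HO_sub (x0 y1 b : ℝ) (hy1 : 0 < y1) : HO x0 y1 b ⊆ HP :=
  fun _ hz => hy1.trans_le hz.2.1

theorem K5_HO_meas (x0 y1 b : ℝ) : MeasurableSet (HO x0 y1 b) := by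
  have h : HO x0 y1 b = Complex.re ⁻¹' (Ico x0 (x0 + 2 * Real.pi)) ∩
      Complex.im ⁻¹' (Icc y1 b) := rfl
  rw [h]
  exact (Complex.measurable_re measurableSet_Ico).inter (Complex.measurable_im measurableSet_Icc)

theorem HO_inj (F : ℂ → ℂ) (M : ℝ) (hF : Cls F M) (x0 y1 b : ℝ) (hy1 : 0 < y1) :
    InjOn F (HO x0 y1 b) := by
  intro z hz w hw he
  obtain ⟨k, hk⟩ := hF.inj z w (K5_HO_sub x0 y1 b hy1 hz) (K5_HO_sub x0 y1 b hy1 hw) he
  have h1 := congrArg Complex.re hk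
  rw [Complex.sub_re, Complex.ofReal_re] at h1
  have hz1 := hz.1.1
  have hz2 := hz.1.2
  have hw1 := hw.1.1
  have hw2 := hw.1.2
  have h2 : -(2 * Real.pi) < (k : ℝ) * (2 * Real.pi) := by
    rw [← h1]
    linarith
  have h3 : (k : ℝ) * (2 * Real.pi) < 2 * Real.pi := by
    rw [← h1]
    linarith
  have hpi : 0 < 2 * Real.pi := by positivity
  have h4 : (-1 : ℝ) < (k : ℝ) := by
    by_contra hcon
    push Not at hcon
    nlinarith
  have h5 : (k : ℝ) < 1 := by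
    by_contra hcon
    push Not at hcon
    nlinarith
  have h6 : k = 0 := by
    have h7 : (-1 : ℤ) < k := by exact_mod_cast h4
    have h8 : k < (1 : ℤ) := by exact_mod_cast h5
    omega
  rw [h6] at hk
  simp only [Int.cast_zero, zero_mul, Complex.ofReal_zero] at hk
  exact sub_eq_zero.1 hk

theorem HO_meas (F : ℂ → ℂ) (M : ℝ) (hF : Cls F M) (x0 y1 b : ℝ) (hy1 : 0 < y1) :
    MeasurableSet (F '' HO x0 y1 b) :=
  (K5_HO_meas x0 y1 b).image_of_continuousOn_injOn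
    (hF.diff.continuousOn.mono (K5_HO_sub x0 y1 b hy1)) (HO_inj F M hF x0 y1 b hy1)

theorem K5_deriv (F : ℂ → ℂ) (M : ℝ) (hF : Cls F M) (x0 y1 b : ℝ) (hy1 : 0 < y1) :
    ∀ ζ ∈ HO x0 y1 b, HasFDerivWithinAt F
      ((ContinuousLinearMap.toSpanSingleton ℂ (deriv F ζ)).restrictScalars ℝ)
      (HO x0 y1 b) ζ := by
  intro ζ hζ
  have h0 : ζ ∈ HP := K5_HO_sub x0 y1 b hy1 hζ
  have h1 := (hF.diff.differentiableAt (K5_open.mem_nhds h0)).hasDerivAt.hasFDerivAt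
  exact (h1.restrictScalars ℝ).hasFDerivWithinAt

theorem K5_hgt (F : ℂ → ℂ) (M : ℝ) (hF : Cls F M) (x0 y1 b : ℝ) (hy1 : 0 < y1) (z : ℂ)
    (hz : z ∈ HO x0 y1 b) : hgt F (HO x0 y1 b) (F z) = z.im := by
  unfold hgt
  rw [(HO_inj F M hF x0 y1 b hy1).leftInvOn_invFunOn hz]

theorem K5_pre (x0 y1 b : ℝ) : Complex.measurableEquivRealProd.symm ⁻¹' (HO x0 y1 b) =
    Ico x0 (x0 + 2 * Real.pi) ×ˢ Icc y1 b := by
  ext p
  rfl

theorem K5_ae (x0 y1 b : ℝ) : (Ico x0 (x0 + 2 * Real.pi) ×ˢ Icc y1 b : Set (ℝ × ℝ)) =ᵐ[volume]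
    RC x0 y1 b := by
  unfold RC
  rw [Measure.volume_eq_prod]
  exact Measure.set_prod_ae_eq Ico_ae_eq_Icc (Filter.EventuallyEq.refl _ _)

theorem K5_compact (x0 y1 b : ℝ) : IsCompact (Icc x0 (x0 + 2 * Real.pi) ×ℂ Icc y1 b) :=
  isCompact_Icc.reProdIm isCompact_Icc

theorem K5_int (F : ℂ → ℂ) (M : ℝ) (hF : Cls F M) (κ x0 y1 b : ℝ) (hy1 : 0 < y1) :
    IntegrableOn (fun z : ℂ => ‖deriv F z‖ ^ 2 * z.im ^ κ) (HO x0 y1 b) := by
  have hsub : (Icc x0 (x0 + 2 * Real.pi) ×ℂ Icc y1 b) ⊆ HP := by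
    intro z hz
    exact hy1.trans_le hz.2.1
  have hc : ContinuousOn (fun z : ℂ => ‖deriv F z‖ ^ 2 * z.im ^ κ)
      (Icc x0 (x0 + 2 * Real.pi) ×ℂ Icc y1 b) := by
    refine ContinuousOn.mul (ContinuousOn.pow ((hF.diff.deriv K5_open).continuousOn.mono
      hsub).norm 2) ?_
    refine Complex.continuous_im.continuousOn.rpow_const fun z hz => Or.inl ?_
    exact (hsub hz).ne'
  refine (hc.integrableOn_compact (K5_compact x0 y1 b)).mono_set ?_
  intro z hz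
  exact ⟨⟨hz.1.1, hz.1.2.le⟩, hz.2⟩

theorem births_integrable (F : ℂ → ℂ) (M : ℝ) (hF : Cls F M) (κ x0 y1 b : ℝ) (hκ : 0 < κ)
    (hy1 : 0 < y1) (hb : y1 < b) :
    IntegrableOn (fun w => hgt F (HO x0 y1 b) w ^ κ) (F '' HO x0 y1 b) := by
  rw [integrableOn_image_iff_integrableOn_abs_det_fderiv_smul volume (K5_HO_meas x0 y1 b)
    (K5_deriv F M hF x0 y1 b hy1) (HO_inj F M hF x0 y1 b hy1)]
  refine (K5_int F M hF κ x0 y1 b hy1).congr_fun (fun z hz => ?_) (K5_HO_meas x0 y1 b)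
  simp only
  rw [K5_hgt F M hF x0 y1 b hy1 z hz, K5_det, abs_of_nonneg (by positivity), smul_eq_mul]

theorem births (F : ℂ → ℂ) (M : ℝ) (hF : Cls F M) (κ x0 y1 b : ℝ) (hκ : 0 < κ)
    (hy1 : 0 < y1) (hb : y1 < b) :
    ∫ w in F '' HO x0 y1 b, hgt F (HO x0 y1 b) w ^ κ =
      ∫ p in RC x0 y1 b, p.2 ^ κ * ‖deriv F (pt p.1 p.2)‖ ^ 2 := by
  rw [integral_image_eq_integral_abs_det_fderiv_smul volume (K5_HO_meas x0 y1 b)
    (K5_deriv F M hF x0 y1 b hy1) (HO_inj F M hF x0 y1 b hy1)]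
  have h1 : ∫ z in HO x0 y1 b, |((ContinuousLinearMap.toSpanSingleton ℂ
      (deriv F z)).restrictScalars ℝ : ℂ →L[ℝ] ℂ).det| • hgt F (HO x0 y1 b) (F z) ^ κ =
      ∫ z in HO x0 y1 b, z.im ^ κ * ‖deriv F z‖ ^ 2 := by
    refine setIntegral_congr_fun (K5_HO_meas x0 y1 b) fun z hz => ?_
    show |((ContinuousLinearMap.toSpanSingleton ℂ (deriv F z)).restrictScalars ℝ : ℂ →L[ℝ] ℂ).det| •
      hgt F (HO x0 y1 b) (F z) ^ κ = z.im ^ κ * ‖deriv F z‖ ^ 2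
    rw [K5_hgt F M hF x0 y1 b hy1 z hz, K5_det, abs_of_nonneg (by positivity), smul_eq_mul,
      mul_comm]
  rw [h1, ← Complex.volume_preserving_equiv_real_prod.symm.setIntegral_preimage_emb
    Complex.measurableEquivRealProd.symm.measurableEmbedding, K5_pre,
    setIntegral_congr_set (K5_ae x0 y1 b)]
  rfl

end H13.EC
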