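import Pool.Agent.H49.EC.K6

/-!
# EC-K6: the integrated inequality (note 1487, Steps 2-4)

Proof in `Pool.Agent.H49.EC.K6a` ... `K6e`, `K6` (helper49): STAR+ for every `w`, Fubini in `w`, births,
side terms, `δ → 0`.
-/

set_option autoImplicit false

open Set Metric MeasureTheory

namespace H13.EC

open H62.CJ

theorem integrated (M q κ b : ℝ) (hq : 0 < q) (hq1 : q < 1) (hκ : 0 < κ) (hb : 0 < b)
    (hb1 : b ≤ 1 / 4) :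
    ∃ C0 : ℝ, 0 ≤ C0 ∧ ∀ F : ℂ → ℂ, Cls F M → ∀ x0 y1 : ℝ, 0 < y1 → y1 < b →
      ∀ (ι : Type) (s : Finset ι) (c : ι → ℂ) (ρ : ι → ℝ) (ω : ι → ℂ) (σ γ : ι → ℝ) (δ0 : ℝ),
      IsFam F q κ x0 y1 b s c ρ ω σ γ δ0 →
      ∑ k ∈ s, γ k * (Real.pi * σ k ^ 2) +
        ∫ p in RC x0 y1 b, WW F q κ (pt p.1 p.2) *
          ((q / κ) ^ (-q) / (1 - q) - c1 q κ * (AA F (pt p.1 p.2)).im) ≤
      2 * Real.pi * q * (q / κ) ^ (1 - q) / (1 - q) *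
        (∫ y in y1..b, y ^ (κ - q + 1) * ‖deriv F (pt x0 y)‖ ^ (2 - q)) + C0 :=
  H49.EC.integrated M q κ b hq hq1 hκ hb hb1

end H13.EC
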