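import Pool.Agent.H13.EC.Def
import Pool.Agent.H90.EC.T4

/-!
# EC-T4: the continuous inequality STAR+ (note 1487, Step 1)

`f > 0` on the closed rectangle, `log f` has negative Laplacian there, `{fx = 0 or fy = 0}` is a null
set; disjoint balls `B(c k, ρ k)` with `f + γ k ≤ f (c k)` on the part of the annulus
`ρ k / 2 ≤ |z - c k| ≤ ρ k` which lies in the rectangle; `z` is outside all balls.

PROOF.  Take the grid `x_i = x0 + i (x1 - x0)/n`, `y_j = y1 + j (b - y1)/n`.  (T2) For `n` large every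
interior vertex has a 4-neighbour with smaller `f`: otherwise both second differences of `g = log f` are
`≥ 0`, by the mean value theorem `gxx (ξ, y) ≥ 0` and `gyy (x, η) ≥ 0` at points within one mesh, but
`gxx + gyy ≤ - ε0 < 0` on the compact rectangle and `gxx`, `gyy` are uniformly continuous.
Discrete STAR (helper25, `Pool.Agent.H25.EC.Star3`) with `B k` = vertices in the open ball
`B(c k, ρ k)` (mesh `< ρ k / 4`), `lo k = f (c k) - γ k`, `v k` = vertex near `c k`, `v0` = vertex near `z`: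
`f z - ε + sum (γ k - ε) ≤ sum_cells J + sum_j (f(x1,y_j) - f(x1,y_{j+1}))^+ + sum_i (..)^+ + f (x1, b)`.
The two line sums are at most the line integrals of `fy^-`, `fx^-` (fundamental theorem).
(T3) The cell sums tend to the double integral: with `j_n (x, y) = J(cell)/area(cell)`, `|j_n| ≤ sup |fxy|`
(all sign cases: `|J| ≤ |f11 - f10 - f01 + f00|`), `j_n → fxy` where `fx < 0, fy < 0`, `j_n = 0` for large `n`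
where `fx > 0` or `fy > 0`; dominated convergence.
-/

set_option autoImplicit false

open Set Metric MeasureTheory

namespace H13.EC

open H62.CJ

theorem star_plus (x0 x1 y1 b : ℝ) (hx : x0 < x1) (hy : y1 < b)
    (f fx fy fxy gx gy gxx gyy : ℝ → ℝ → ℝ)
    (hpos : ∀ x ∈ Icc x0 x1, ∀ y ∈ Icc y1 b, 0 < f x y)
    (hfx : ∀ x ∈ Icc x0 x1, ∀ y ∈ Icc y1 b, HasDerivAt (fun t => f t y) (fx x y) x)
    (hfy : ∀ x ∈ Icc x0 x1, ∀ y ∈ Icc y1 b, HasDerivAt (fun t => f x t) (fy x y) y)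
    (hfxy : ∀ x ∈ Icc x0 x1, ∀ y ∈ Icc y1 b, HasDerivAt (fun t => fx x t) (fxy x y) y)
    (hgx : ∀ x ∈ Icc x0 x1, ∀ y ∈ Icc y1 b,
      HasDerivAt (fun t => Real.log (f t y)) (gx x y) x)
    (hgy : ∀ x ∈ Icc x0 x1, ∀ y ∈ Icc y1 b,
      HasDerivAt (fun t => Real.log (f x t)) (gy x y) y)
    (hgxx : ∀ x ∈ Icc x0 x1, ∀ y ∈ Icc y1 b, HasDerivAt (fun t => gx t y) (gxx x y) x)
    (hgyy : ∀ x ∈ Icc x0 x1, ∀ y ∈ Icc y1 b, HasDerivAt (fun t => gy x t) (gyy x y) y)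
    (cfx : ContinuousOn (fun p : ℝ × ℝ => fx p.1 p.2) (Icc x0 x1 ×ˢ Icc y1 b))
    (cfy : ContinuousOn (fun p : ℝ × ℝ => fy p.1 p.2) (Icc x0 x1 ×ˢ Icc y1 b))
    (cfxy : ContinuousOn (fun p : ℝ × ℝ => fxy p.1 p.2) (Icc x0 x1 ×ˢ Icc y1 b))
    (cgxx : ContinuousOn (fun p : ℝ × ℝ => gxx p.1 p.2) (Icc x0 x1 ×ˢ Icc y1 b))
    (cgyy : ContinuousOn (fun p : ℝ × ℝ => gyy p.1 p.2) (Icc x0 x1 ×ˢ Icc y1 b))
    (hlap : ∀ x ∈ Icc x0 x1, ∀ y ∈ Icc y1 b, gxx x y + gyy x y < 0)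
    (hnull : volume {p : ℝ × ℝ | p ∈ Icc x0 x1 ×ˢ Icc y1 b ∧
      (fx p.1 p.2 = 0 ∨ fy p.1 p.2 = 0)} = 0)
    {ι : Type} (s : Finset ι) (c : ι → ℂ) (ρ γ : ι → ℝ)
    (hcre : ∀ k ∈ s, (c k).re ∈ Icc x0 x1) (hcim : ∀ k ∈ s, (c k).im ∈ Icc y1 b)
    (hρ : ∀ k ∈ s, 0 < ρ k) (hγ : ∀ k ∈ s, 0 ≤ γ k)
    (hγf : ∀ k ∈ s, γ k ≤ f (c k).re (c k).im)
    (hdisj : ∀ k ∈ s, ∀ l ∈ s, k ≠ l → ρ k + ρ l < ‖c k - c l‖)
    (hgain : ∀ k ∈ s, ∀ x ∈ Icc x0 x1, ∀ y ∈ Icc y1 b, ρ k / 2 ≤ ‖pt x y - c k‖ →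
      ‖pt x y - c k‖ ≤ ρ k → f x y + γ k ≤ f (c k).re (c k).im)
    (z : ℂ) (hzre : z.re ∈ Icc x0 x1) (hzim : z.im ∈ Icc y1 b)
    (hzc : ∀ k ∈ s, ρ k < ‖z - c k‖) :
    f z.re z.im + ∑ k ∈ s, γ k ≤
      (∫ p in Icc x0 x1 ×ˢ Icc y1 b,
        if fx p.1 p.2 < 0 ∧ fy p.1 p.2 < 0 then fxy p.1 p.2 else 0) +
      (∫ y in y1..b, max 0 (-fy x1 y)) + (∫ x in x0..x1, max 0 (-fx x b)) + f x1 b := by
  have H : Pool.Agent.H25.EC.C2R x0 x1 y1 b f fx fy fxy := ⟨hx, hy, hfx, hfy, hfxy, cfx, cfy, cfxy⟩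
  exact Pool.Agent.H90.EC.star_core x0 x1 y1 b hx hy f fx fy gx gy gxx gyy _ hpos hfx hfy hgx hgy
    hgxx hgyy cfx cfy cgxx cgyy hlap (Pool.Agent.H25.EC.cell_sums_tendsto_null H hnull) s c ρ γ hcre hcim hρ hγf hdisj
    hgain z hzre hzim hzc

/-- the version with both mixed derivatives, no null set hypothesis -/
theorem star_plus_yx (x0 x1 y1 b : ℝ) (hx : x0 < x1) (hy : y1 < b)
    (f fx fy fxy gx gy gxx gyy : ℝ → ℝ → ℝ)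
    (hpos : ∀ x ∈ Icc x0 x1, ∀ y ∈ Icc y1 b, 0 < f x y)
    (hfx : ∀ x ∈ Icc x0 x1, ∀ y ∈ Icc y1 b, HasDerivAt (fun t => f t y) (fx x y) x)
    (hfy : ∀ x ∈ Icc x0 x1, ∀ y ∈ Icc y1 b, HasDerivAt (fun t => f x t) (fy x y) y)
    (hfxy : ∀ x ∈ Icc x0 x1, ∀ y ∈ Icc y1 b, HasDerivAt (fun t => fx x t) (fxy x y) y)
    (hgx : ∀ x ∈ Icc x0 x1, ∀ y ∈ Icc y1 b,
      HasDerivAt (fun t => Real.log (f t y)) (gx x y) x)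
    (hgy : ∀ x ∈ Icc x0 x1, ∀ y ∈ Icc y1 b,
      HasDerivAt (fun t => Real.log (f x t)) (gy x y) y)
    (hgxx : ∀ x ∈ Icc x0 x1, ∀ y ∈ Icc y1 b, HasDerivAt (fun t => gx t y) (gxx x y) x)
    (hgyy : ∀ x ∈ Icc x0 x1, ∀ y ∈ Icc y1 b, HasDerivAt (fun t => gy x t) (gyy x y) y)
    (cfx : ContinuousOn (fun p : ℝ × ℝ => fx p.1 p.2) (Icc x0 x1 ×ˢ Icc y1 b))
    (cfy : ContinuousOn (fun p : ℝ × ℝ => fy p.1 p.2) (Icc x0 x1 ×ˢ Icc y1 b))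
    (cfxy : ContinuousOn (fun p : ℝ × ℝ => fxy p.1 p.2) (Icc x0 x1 ×ˢ Icc y1 b))
    (cgxx : ContinuousOn (fun p : ℝ × ℝ => gxx p.1 p.2) (Icc x0 x1 ×ˢ Icc y1 b))
    (cgyy : ContinuousOn (fun p : ℝ × ℝ => gyy p.1 p.2) (Icc x0 x1 ×ˢ Icc y1 b))
    (hlap : ∀ x ∈ Icc x0 x1, ∀ y ∈ Icc y1 b, gxx x y + gyy x y < 0)
    (hfyx : ∀ x ∈ Icc x0 x1, ∀ y ∈ Icc y1 b, HasDerivAt (fun t => fy t y) (fxy x y) x)
    {ι : Type} (s : Finset ι) (c : ι → ℂ) (ρ γ : ι → ℝ)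
    (hcre : ∀ k ∈ s, (c k).re ∈ Icc x0 x1) (hcim : ∀ k ∈ s, (c k).im ∈ Icc y1 b)
    (hρ : ∀ k ∈ s, 0 < ρ k) (hγ : ∀ k ∈ s, 0 ≤ γ k)
    (hγf : ∀ k ∈ s, γ k ≤ f (c k).re (c k).im)
    (hdisj : ∀ k ∈ s, ∀ l ∈ s, k ≠ l → ρ k + ρ l < ‖c k - c l‖)
    (hgain : ∀ k ∈ s, ∀ x ∈ Icc x0 x1, ∀ y ∈ Icc y1 b, ρ k / 2 ≤ ‖pt x y - c k‖ →
      ‖pt x y - c k‖ ≤ ρ k → f x y + γ k ≤ f (c k).re (c k).im)
    (z : ℂ) (hzre : z.re ∈ Icc x0 x1) (hzim : z.im ∈ Icc y1 b)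
    (hzc : ∀ k ∈ s, ρ k < ‖z - c k‖) :
    f z.re z.im + ∑ k ∈ s, γ k ≤
      (∫ p in Icc x0 x1 ×ˢ Icc y1 b,
        if fx p.1 p.2 < 0 ∧ fy p.1 p.2 < 0 then fxy p.1 p.2 else 0) +
      (∫ y in y1..b, max 0 (-fy x1 y)) + (∫ x in x0..x1, max 0 (-fx x b)) + f x1 b := by
  have H : Pool.Agent.H25.EC.C2R x0 x1 y1 b f fx fy fxy := ⟨hx, hy, hfx, hfy, hfxy, cfx, cfy, cfxy⟩
  exact Pool.Agent.H90.EC.star_core x0 x1 y1 b hx hy f fx fy gx gy gxx gyy _ hpos hfx hfy hgx hgy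
    hgxx hgyy cfx cfy cgxx cgyy hlap (Pool.Agent.H25.EC.cell_sums_tendsto_dyx H hfyx) s c ρ γ hcre hcim hρ hγf hdisj
    hgain z hzre hzim hzc

/-- a point of the rectangle outside all balls -/
theorem exists_pt (x0 x1 y1 b : ℝ) (hx : x0 < x1) (hy : y1 < b)
    {ι : Type} (s : Finset ι) (c : ι → ℂ) (ρ : ι → ℝ)
    (hcre : ∀ k ∈ s, (c k).re ∈ Icc x0 x1) (hcim : ∀ k ∈ s, (c k).im ∈ Icc y1 b)
    (hρ : ∀ k ∈ s, 0 < ρ k)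
    (hdisj : ∀ k ∈ s, ∀ l ∈ s, k ≠ l → ρ k + ρ l < ‖c k - c l‖)
    (hρx : ∀ k ∈ s, 2 * ρ k < x1 - x0) :
    ∃ z : ℂ, z.re ∈ Icc x0 x1 ∧ z.im ∈ Icc y1 b ∧ ∀ k ∈ s, ρ k < ‖z - c k‖ := by
  classical
  rcases s.eq_empty_or_nonempty with rfl | ⟨k, hk⟩
  · exact ⟨pt x0 y1, ⟨le_refl _, hx.le⟩, ⟨le_refl _, hy.le⟩, by simp⟩
  have hk1 := hcre k hk
  have hk2 := hρx k hk
  have hk3 := hρ k hk
  have e1 : ∀ᶠ e in nhdsWithin (0 : ℝ) (Ioi 0), e < (x1 - x0) / 2 - ρ k :=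
    eventually_nhdsWithin_of_eventually_nhds (eventually_lt_nhds (by linarith))
  have e2 : ∀ᶠ e in nhdsWithin (0 : ℝ) (Ioi 0), ∀ l ∈ s.erase k, e < ‖c k - c l‖ - ρ k - ρ l := by
    rw [Filter.eventually_all_finset]
    intro l hl
    rw [Finset.mem_erase] at hl
    have := hdisj k hk l hl.2 (Ne.symm hl.1)
    exact eventually_nhdsWithin_of_eventually_nhds (eventually_lt_nhds (by linarith))
  have e3 : ∀ᶠ e in nhdsWithin (0 : ℝ) (Ioi 0), 0 < e := eventually_mem_nhdsWithin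
  obtain ⟨e, h1, h2, h3⟩ := (e1.and (e2.and e3)).exists
  have hz : ∀ z : ℂ, ‖z - c k‖ = ρ k + e → ∀ l ∈ s, ρ l < ‖z - c l‖ := by
    intro z hz l hl
    by_cases hlk : l = k
    · subst hlk
      rw [hz]
      linarith
    · have h4 := h2 l (Finset.mem_erase.2 ⟨hlk, hl⟩)
      have h5 : ‖c k - c l‖ ≤ ‖z - c l‖ + ‖z - c k‖ := by
        have := norm_sub_le (z - c l) (z - c k)
        rwa [sub_sub_sub_cancel_left] at this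
      linarith
  by_cases hc : (x1 - x0) / 2 ≤ x1 - (c k).re
  · refine ⟨⟨(c k).re + (ρ k + e), (c k).im⟩, ⟨?_, ?_⟩, hcim k hk, hz _ ?_⟩
    · show x0 ≤ (c k).re + (ρ k + e)
      linarith [hk1.1]
    · show (c k).re + (ρ k + e) ≤ x1
      linarith
    · have : (⟨(c k).re + (ρ k + e), (c k).im⟩ : ℂ) - c k = ((ρ k + e : ℝ) : ℂ) := by
        apply Complex.ext <;> simp
      rw [this, Complex.norm_real, Real.norm_eq_abs, abs_of_pos (by linarith)]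
  · push Not at hc
    refine ⟨⟨(c k).re - (ρ k + e), (c k).im⟩, ⟨?_, ?_⟩, hcim k hk, hz _ ?_⟩
    · show x0 ≤ (c k).re - (ρ k + e)
      linarith
    · show (c k).re - (ρ k + e) ≤ x1
      linarith [hk1.2]
    · have : (⟨(c k).re - (ρ k + e), (c k).im⟩ : ℂ) - c k = ((-(ρ k + e) : ℝ) : ℂ) := by
        apply Complex.ext <;> simp
      rw [this, Complex.norm_real, Real.norm_eq_abs, abs_neg, abs_of_pos (by linarith)]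

/-- the version without the point `z`.  PROOF: if `s` is empty take `z` = a corner and drop `f z ≥ 0`;
otherwise take `k` in `s` and `z` in the rectangle with `ρ k < |z - c k| < ρ k + ε` (exists because the rectangle is
connected and not contained in the ball, `2 ρ k < x1 - x0`); the other closed balls do not meet it. -/
theorem star_plus0 (x0 x1 y1 b : ℝ) (hx : x0 < x1) (hy : y1 < b)
    (f fx fy fxy gx gy gxx gyy : ℝ → ℝ → ℝ)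
    (hpos : ∀ x ∈ Icc x0 x1, ∀ y ∈ Icc y1 b, 0 < f x y)
    (hfx : ∀ x ∈ Icc x0 x1, ∀ y ∈ Icc y1 b, HasDerivAt (fun t => f t y) (fx x y) x)
    (hfy : ∀ x ∈ Icc x0 x1, ∀ y ∈ Icc y1 b, HasDerivAt (fun t => f x t) (fy x y) y)
    (hfxy : ∀ x ∈ Icc x0 x1, ∀ y ∈ Icc y1 b, HasDerivAt (fun t => fx x t) (fxy x y) y)
    (hgx : ∀ x ∈ Icc x0 x1, ∀ y ∈ Icc y1 b,
      HasDerivAt (fun t => Real.log (f t y)) (gx x y) x)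
    (hgy : ∀ x ∈ Icc x0 x1, ∀ y ∈ Icc y1 b,
      HasDerivAt (fun t => Real.log (f x t)) (gy x y) y)
    (hgxx : ∀ x ∈ Icc x0 x1, ∀ y ∈ Icc y1 b, HasDerivAt (fun t => gx t y) (gxx x y) x)
    (hgyy : ∀ x ∈ Icc x0 x1, ∀ y ∈ Icc y1 b, HasDerivAt (fun t => gy x t) (gyy x y) y)
    (cfx : ContinuousOn (fun p : ℝ × ℝ => fx p.1 p.2) (Icc x0 x1 ×ˢ Icc y1 b))
    (cfy : ContinuousOn (fun p : ℝ × ℝ => fy p.1 p.2) (Icc x0 x1 ×ˢ Icc y1 b))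
    (cfxy : ContinuousOn (fun p : ℝ × ℝ => fxy p.1 p.2) (Icc x0 x1 ×ˢ Icc y1 b))
    (cgxx : ContinuousOn (fun p : ℝ × ℝ => gxx p.1 p.2) (Icc x0 x1 ×ˢ Icc y1 b))
    (cgyy : ContinuousOn (fun p : ℝ × ℝ => gyy p.1 p.2) (Icc x0 x1 ×ˢ Icc y1 b))
    (hlap : ∀ x ∈ Icc x0 x1, ∀ y ∈ Icc y1 b, gxx x y + gyy x y < 0)
    (hnull : volume {p : ℝ × ℝ | p ∈ Icc x0 x1 ×ˢ Icc y1 b ∧
      (fx p.1 p.2 = 0 ∨ fy p.1 p.2 = 0)} = 0)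
    {ι : Type} (s : Finset ι) (c : ι → ℂ) (ρ γ : ι → ℝ)
    (hcre : ∀ k ∈ s, (c k).re ∈ Icc x0 x1) (hcim : ∀ k ∈ s, (c k).im ∈ Icc y1 b)
    (hρ : ∀ k ∈ s, 0 < ρ k) (hγ : ∀ k ∈ s, 0 ≤ γ k)
    (hγf : ∀ k ∈ s, γ k ≤ f (c k).re (c k).im)
    (hdisj : ∀ k ∈ s, ∀ l ∈ s, k ≠ l → ρ k + ρ l < ‖c k - c l‖)
    (hgain : ∀ k ∈ s, ∀ x ∈ Icc x0 x1, ∀ y ∈ Icc y1 b, ρ k / 2 ≤ ‖pt x y - c k‖ →
      ‖pt x y - c k‖ ≤ ρ k → f x y + γ k ≤ f (c k).re (c k).im)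
    (hρx : ∀ k ∈ s, 2 * ρ k < x1 - x0) :
    ∑ k ∈ s, γ k ≤
      (∫ p in Icc x0 x1 ×ˢ Icc y1 b,
        if fx p.1 p.2 < 0 ∧ fy p.1 p.2 < 0 then fxy p.1 p.2 else 0) +
      (∫ y in y1..b, max 0 (-fy x1 y)) + (∫ x in x0..x1, max 0 (-fx x b)) + f x1 b := by
  obtain ⟨z, hz1, hz2, hz3⟩ := exists_pt x0 x1 y1 b hx hy s c ρ hcre hcim hρ hdisj hρx
  have h1 := star_plus x0 x1 y1 b hx hy f fx fy fxy gx gy gxx gyy hpos hfx hfy hfxy hgx hgy hgxx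
    hgyy cfx cfy cfxy cgxx cgyy hlap hnull s c ρ γ hcre hcim hρ hγ hγf hdisj hgain z hz1 hz2 hz3
  have h2 := hpos z.re hz1 z.im hz2
  linarith

/-- the version with both mixed derivatives, no null set hypothesis -/
theorem star_plus0_yx (x0 x1 y1 b : ℝ) (hx : x0 < x1) (hy : y1 < b)
    (f fx fy fxy gx gy gxx gyy : ℝ → ℝ → ℝ)
    (hpos : ∀ x ∈ Icc x0 x1, ∀ y ∈ Icc y1 b, 0 < f x y)
    (hfx : ∀ x ∈ Icc x0 x1, ∀ y ∈ Icc y1 b, HasDerivAt (fun t => f t y) (fx x y) x)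
    (hfy : ∀ x ∈ Icc x0 x1, ∀ y ∈ Icc y1 b, HasDerivAt (fun t => f x t) (fy x y) y)
    (hfxy : ∀ x ∈ Icc x0 x1, ∀ y ∈ Icc y1 b, HasDerivAt (fun t => fx x t) (fxy x y) y)
    (hgx : ∀ x ∈ Icc x0 x1, ∀ y ∈ Icc y1 b,
      HasDerivAt (fun t => Real.log (f t y)) (gx x y) x)
    (hgy : ∀ x ∈ Icc x0 x1, ∀ y ∈ Icc y1 b,
      HasDerivAt (fun t => Real.log (f x t)) (gy x y) y)
    (hgxx : ∀ x ∈ Icc x0 x1, ∀ y ∈ Icc y1 b, HasDerivAt (fun t => gx t y) (gxx x y) x)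
    (hgyy : ∀ x ∈ Icc x0 x1, ∀ y ∈ Icc y1 b, HasDerivAt (fun t => gy x t) (gyy x y) y)
    (cfx : ContinuousOn (fun p : ℝ × ℝ => fx p.1 p.2) (Icc x0 x1 ×ˢ Icc y1 b))
    (cfy : ContinuousOn (fun p : ℝ × ℝ => fy p.1 p.2) (Icc x0 x1 ×ˢ Icc y1 b))
    (cfxy : ContinuousOn (fun p : ℝ × ℝ => fxy p.1 p.2) (Icc x0 x1 ×ˢ Icc y1 b))
    (cgxx : ContinuousOn (fun p : ℝ × ℝ => gxx p.1 p.2) (Icc x0 x1 ×ˢ Icc y1 b))
    (cgyy : ContinuousOn (fun p : ℝ × ℝ => gyy p.1 p.2) (Icc x0 x1 ×ˢ Icc y1 b))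
    (hlap : ∀ x ∈ Icc x0 x1, ∀ y ∈ Icc y1 b, gxx x y + gyy x y < 0)
    (hfyx : ∀ x ∈ Icc x0 x1, ∀ y ∈ Icc y1 b, HasDerivAt (fun t => fy t y) (fxy x y) x)
    {ι : Type} (s : Finset ι) (c : ι → ℂ) (ρ γ : ι → ℝ)
    (hcre : ∀ k ∈ s, (c k).re ∈ Icc x0 x1) (hcim : ∀ k ∈ s, (c k).im ∈ Icc y1 b)
    (hρ : ∀ k ∈ s, 0 < ρ k) (hγ : ∀ k ∈ s, 0 ≤ γ k)
    (hγf : ∀ k ∈ s, γ k ≤ f (c k).re (c k).im)
    (hdisj : ∀ k ∈ s, ∀ l ∈ s, k ≠ l → ρ k + ρ l < ‖c k - c l‖)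
    (hgain : ∀ k ∈ s, ∀ x ∈ Icc x0 x1, ∀ y ∈ Icc y1 b, ρ k / 2 ≤ ‖pt x y - c k‖ →
      ‖pt x y - c k‖ ≤ ρ k → f x y + γ k ≤ f (c k).re (c k).im)
    (hρx : ∀ k ∈ s, 2 * ρ k < x1 - x0) :
    ∑ k ∈ s, γ k ≤
      (∫ p in Icc x0 x1 ×ˢ Icc y1 b,
        if fx p.1 p.2 < 0 ∧ fy p.1 p.2 < 0 then fxy p.1 p.2 else 0) +
      (∫ y in y1..b, max 0 (-fy x1 y)) + (∫ x in x0..x1, max 0 (-fx x b)) + f x1 b := by
  obtain ⟨z, hz1, hz2, hz3⟩ := exists_pt x0 x1 y1 b hx hy s c ρ hcre hcim hρ hdisj hρx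
  have h1 := star_plus_yx x0 x1 y1 b hx hy f fx fy fxy gx gy gxx gyy hpos hfx hfy hfxy hgx hgy hgxx
    hgyy cfx cfy cfxy cgxx cgyy hlap hfyx s c ρ γ hcre hcim hρ hγ hγf hdisj hgain z hz1 hz2 hz3
  have h2 := hpos z.re hz1 z.im hz2
  linarith

end H13.EC
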